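import Pool.Agent.Helper67_MA3.EngineC

set_option autoImplicit false

namespace Helper67_MA3

open Finset Classical Filter Helper42_MA

/-- **Block engine, final form**: `R` runs of `D + 1` lookups, each run inside one block of length
`s`; positions `Fin N`, graphs on `Fin n`. -/
theorem engineC_final : ∃ N0 : ℕ, ∀ n : ℕ, N0 ≤ n → ∀ (N c R D s t : ℕ),
    c ≤ 3 * Nat.clog 2 n → D + 1 ≤ Nat.clog 2 n ^ 3 →
    85 * (Nat.clog 2 (Nat.clog 2 n) * R) ≤ Nat.clog 2 n →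
    0 < s → 0 < t → N ≤ t * s → N ≤ 4 * n → t ≤ Nat.clog 2 n ^ 11 →
    s ≤ 2 * (n / Nat.clog 2 n ^ 10) →
    ∀ (W : Type) [Fintype W] [Nonempty W]
    (cA cB : W → SimpleGraph (Fin n) → Prop)
    (α : W → SimpleGraph (Fin n) → Fin N → Fin c → Bool)
    (Ψ : W → SimpleGraph (Fin n) → (Fin R → Fin (D + 1) → Fin N) →
      (Fin R → Fin (D + 1) → Fin c → Bool) → Prop)
    (YES NO : SimpleGraph (Fin n) → SimpleGraph (Fin n) → Prop)
    (_ : ∀ x y, YES x y → ∃ w, cA w x ∧ cB w y ∧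
      ∀ v, SameBlock s v → ¬ Ψ w y v (fun k i => α w x (v k i)))
    (_ : ∀ x y, NO x y → ∀ w, cA w x → cB w y →
      ∃ v, SameBlock s v ∧ Ψ w y v (fun k i => α w x (v k i))),
    HasMA n (2 * Real.log (Fintype.card W) + 1 + n / Nat.clog 2 n) YES NO := by
  have E1 := eventually_poly_mul_le 8 7
  have E2 := eventually_poly_mul_le 64 9
  rw [eventually_atTop] at E1 E2
  obtain ⟨l1, hl1⟩ := E1
  obtain ⟨l2, hl2⟩ := E2
  refine ⟨2 ^ (l1 + l2 + 100) + 1, fun n hn N c R D s t hc hD hR hspos htpos hts hN ht11 hs10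
    W _ _ cA cB α Ψ YES NO hyes hno => ?_⟩
  set l := Nat.clog 2 n with hl
  set lam := Nat.clog 2 l with hlam
  have hn1 : 1 < n := by
    have : 1 ≤ 2 ^ (l1 + l2 + 100) := Nat.one_le_two_pow
    omega
  have hll : l1 + l2 + 100 < l := (Nat.lt_clog_iff_pow_lt (by norm_num)).mpr (by omega)
  have hnl : n ≤ 2 ^ l := Nat.le_pow_clog (by norm_num) n
  have hln : 2 ^ (l - 1) < n := Nat.pow_pred_clog_lt_self (by norm_num) hn1
  have hlam2 : l ≤ 2 ^ lam := Nat.le_pow_clog (by norm_num) l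
  have hlam1 : 1 ≤ lam := Nat.clog_pos (by norm_num) (by omega)
  have hlaml : lam ≤ l := Nat.clog_le_of_le_pow (Nat.lt_two_pow_self).le
  have E1 := hl1 l (by omega)
  have E2 := hl2 l (by omega)
  -- parameters
  have hRl : 85 * R ≤ l := by
    calc 85 * R ≤ 85 * (lam * R) := by nlinarith
      _ ≤ l := hR
  obtain ⟨q, hqp, hq1, hq2⟩ := Nat.exists_prime_lt_and_le_two_mul
    (2 ^ (2 * l * (D + 1) * R + 20 * lam)) (by positivity)
  have : Fact q.Prime := ⟨hqp⟩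
  have hl0 : 0 < l := by omega
  have hpowlam : ∀ k : ℕ, l ^ k ≤ 2 ^ (k * lam) := by
    intro k
    calc l ^ k ≤ (2 ^ lam) ^ k := Nat.pow_le_pow_left hlam2 k
      _ = 2 ^ (k * lam) := by rw [← pow_mul, mul_comm]
  have hDc : t * ((D + 1) * c + 1) ≤ l ^ 16 := by
    calc t * ((D + 1) * c + 1) ≤ l ^ 11 * (l ^ 3 * (3 * l) + l ^ 4) := by
          apply Nat.mul_le_mul ht11
          have h1 : (D + 1) * c ≤ l ^ 3 * (3 * l) := Nat.mul_le_mul hD hc
          have h2 : 1 ≤ l ^ 4 := Nat.one_le_pow _ _ hl0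
          omega
      _ = 4 * l ^ 15 := by ring
      _ ≤ l * l ^ 15 := Nat.mul_le_mul_right _ (by omega)
      _ = l ^ 16 := by ring
  have hqt : t ≤ q := by
    have h1 : l ^ 11 ≤ 2 ^ (2 * l * (D + 1) * R + 20 * lam) :=
      (hpowlam 11).trans (Nat.pow_le_pow_right (by norm_num) (by omega))
    omega
  have hN2 : N ≤ 2 ^ (2 * l) := by
    calc N ≤ 4 * n := hN
      _ ≤ 2 ^ l * 2 ^ l := by
          apply Nat.mul_le_mul _ hnl
          calc 4 = 2 ^ 2 := by norm_num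
            _ ≤ 2 ^ l := Nat.pow_le_pow_right (by norm_num) (by omega)
      _ = 2 ^ (2 * l) := by rw [← pow_add]; congr 1; ring
  have hqn : (N ^ (D + 1)) ^ R < q := by
    refine lt_of_le_of_lt ?_ hq1
    calc (N ^ (D + 1)) ^ R ≤ ((2 ^ (2 * l)) ^ (D + 1)) ^ R :=
          Nat.pow_le_pow_left (Nat.pow_le_pow_left hN2 _) _
      _ = 2 ^ (2 * l * (D + 1) * R) := by rw [← pow_mul, ← pow_mul, ← mul_assoc]
      _ ≤ _ := Nat.pow_le_pow_right (by norm_num) (by omega)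
  have hqD : 3 * (R * (t * ((D + 1) * c + 1))) ≤ q := by
    have h1 : 3 * (R * (t * ((D + 1) * c + 1))) ≤ l ^ 18 := by
      calc 3 * (R * (t * ((D + 1) * c + 1))) ≤ l * (l * l ^ 16) := by
            apply Nat.mul_le_mul (by omega)
            apply Nat.mul_le_mul (by omega) hDc
        _ = l ^ 18 := by ring
    have h2 : l ^ 18 ≤ 2 ^ (2 * l * (D + 1) * R + 20 * lam) :=
      (hpowlam 18).trans (Nat.pow_le_pow_right (by norm_num) (by omega))
    omega
  set b := 2 * l * (D + 1) * R + 20 * lam + 1 with hb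
  have hqb : q ≤ 2 ^ b := by
    rw [hb, pow_succ]; omega
  have hbl : b ≤ 2 * l ^ 5 + l ^ 2 := by
    have h1 : 2 * l * (D + 1) * R ≤ 2 * l * l ^ 3 * l := by
      apply Nat.mul_le_mul _ (by omega)
      exact Nat.mul_le_mul_left _ hD
    have h2 : 2 * l * l ^ 3 * l = 2 * l ^ 5 := by ring
    have h3 : 20 * lam + 1 ≤ l ^ 2 := by nlinarith
    omega
  have hbl2 : b ≤ 3 * l ^ 5 := by
    have : l ^ 2 ≤ l ^ 5 := Nat.pow_le_pow_right hl0 (by norm_num)
    omega
  have main := engineC (p0 := Nat.clog 2 (Fintype.card W)) hspos htpos hts hqt hqn hqD cA cB α Ψ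
    hyes hno (Nat.le_pow_clog (by norm_num) _) hqb
  refine main.mono ?_ (fun _ _ h => h) (fun _ _ h => h)
  -- numerical estimate
  have h8 : 16 * (lam * R) ≤ l / 5 := by omega
  have hDd : (t * ((D + 1) * c + 1)) ^ R ≤ 2 ^ (l / 5) := by
    calc (t * ((D + 1) * c + 1)) ^ R ≤ (l ^ 16) ^ R := Nat.pow_le_pow_left hDc R
      _ = l ^ (16 * R) := by rw [← pow_mul]
      _ ≤ 2 ^ (16 * R * lam) := hpowlam _
      _ = 2 ^ (16 * (lam * R)) := by ring_nf
      _ ≤ 2 ^ (l / 5) := Nat.pow_le_pow_right (by norm_num) h8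
  have hlpos : (0:ℝ) < l := by exact_mod_cast hl0
  have hl100 : (100:ℝ) ≤ l := by
    have : 100 ≤ l := by omega
    exact_mod_cast this
  -- first term
  have T1 : ((b * (t * ((D + 1) * c + 1)) ^ R : ℕ) : ℝ) ≤ n / (8 * l) := by
    rw [le_div_iff₀ (by positivity)]
    have h1 : b * (t * ((D + 1) * c + 1)) ^ R * (8 * l) ≤ n := by
      calc b * (t * ((D + 1) * c + 1)) ^ R * (8 * l) ≤ 3 * l ^ 5 * 2 ^ (l / 5) * (8 * l) := by
            gcongr
        _ = 24 * l ^ 6 * 2 ^ (l / 5) := by ring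
        _ ≤ 8 * l ^ 7 * 2 ^ (l / 5) := by
            apply Nat.mul_le_mul_right
            calc 24 * l ^ 6 = 8 * (3 * l ^ 6) := by ring
              _ ≤ 8 * (l * l ^ 6) := by
                  apply Nat.mul_le_mul_left
                  exact Nat.mul_le_mul_right _ (by omega)
              _ = 8 * l ^ 7 := by ring
        _ ≤ 2 ^ (l - 1) := E1
        _ ≤ n := hln.le
    exact_mod_cast h1
  have T2 : ((b * (R * s * c) + 1 : ℕ) : ℝ) ≤ 18 * l ^ 7 * (n / l ^ 10) + 1 := by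
    have h1 : (b * (R * s * c) + 1 : ℕ) ≤ 18 * l ^ 7 * (n / l ^ 10) + 1 := by
      have : b * (R * s * c) ≤ 3 * l ^ 5 * (l * (2 * (n / l ^ 10)) * (3 * l)) := by
        apply Nat.mul_le_mul hbl2
        apply Nat.mul_le_mul _ hc
        exact Nat.mul_le_mul (by omega) hs10
      calc b * (R * s * c) + 1 ≤ 3 * l ^ 5 * (l * (2 * (n / l ^ 10)) * (3 * l)) + 1 := by omega
        _ = 18 * l ^ 7 * (n / l ^ 10) + 1 := by ring
    have h2 : ((n / l ^ 10 : ℕ) : ℝ) ≤ (n : ℝ) / (l : ℝ) ^ 10 := by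
      have h3 : ((n / l ^ 10 : ℕ) : ℝ) ≤ (n : ℝ) / ((l ^ 10 : ℕ) : ℝ) := Nat.cast_div_le
      push_cast at h3
      exact h3
    calc ((b * (R * s * c) + 1 : ℕ) : ℝ) ≤ ((18 * l ^ 7 * (n / l ^ 10) + 1 : ℕ) : ℝ) := by
          exact_mod_cast h1
      _ = 18 * (l:ℝ) ^ 7 * ((n / l ^ 10 : ℕ) : ℝ) + 1 := by push_cast; ring
      _ ≤ _ := by gcongr
  have T3 : (18 * (l:ℝ) ^ 7 * (n / l ^ 10) + 1) ≤ n / (2 * l) := by
    have h1 : 18 * (l:ℝ) ^ 7 * (n / l ^ 10) = 18 * n / l ^ 3 := by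
      field_simp
    have h2 : 18 * (n:ℝ) / l ^ 3 ≤ n / (4 * l) := by
      rw [div_le_div_iff₀ (by positivity) (by positivity)]
      have h3 : (72:ℝ) * l ≤ l ^ 3 := by
        have h4 : (72:ℝ) ≤ l * l := by nlinarith
        calc (72:ℝ) * l ≤ (l * l) * l := mul_le_mul_of_nonneg_right h4 hlpos.le
          _ = l ^ 3 := by ring
      have : (0:ℝ) ≤ n := by positivity
      nlinarith
    have h3 : (1:ℝ) ≤ n / (4 * l) := by
      rw [le_div_iff₀ (by positivity)]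
      have h4 : 1 * (4 * l) ≤ n := by
        calc 1 * (4 * l) = 4 * l := by ring
          _ ≤ 64 * l ^ 9 := by
              apply Nat.mul_le_mul (by norm_num)
              calc l = l ^ 1 := (pow_one l).symm
                _ ≤ l ^ 9 := Nat.pow_le_pow_right hl0 (by norm_num)
          _ = 64 * l ^ 9 * 1 := by ring
          _ ≤ 64 * l ^ 9 * 2 ^ (l / 5) := Nat.mul_le_mul_left _ Nat.one_le_two_pow
          _ ≤ 2 ^ (l - 1) := E2
          _ ≤ n := hln.le
      exact_mod_cast h4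
    have h5 : (n:ℝ) / (4 * l) + n / (4 * l) = n / (2 * l) := by
      field_simp; ring
    rw [h1]
    linarith
  have T4 : (n:ℝ) / (8 * l) + n / (2 * l) ≤ n / l := by
    have : (n:ℝ) / (8 * l) + n / (2 * l) = (5 / 8) * (n / l) := by
      field_simp; ring
    rw [this]
    have : (0:ℝ) ≤ n / l := by positivity
    linarith
  have hcl := clog_le_log (Fintype.card W) Fintype.card_pos
  have T5 : ((Nat.clog 2 (Fintype.card W) + b * (t * ((D + 1) * c + 1)) ^ R
      + (b * (R * s * c) + 1) : ℕ) : ℝ)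
      = Nat.clog 2 (Fintype.card W) + ((b * (t * ((D + 1) * c + 1)) ^ R : ℕ) : ℝ)
        + ((b * (R * s * c) + 1 : ℕ) : ℝ) := by
    push_cast; ring
  rw [T5]
  linarith

end Helper67_MA3
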