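import Pool.Agent.Helper67_MA2.TwoLevel
import Pool.Agent.Helper67_MA2.Greedy
import Pool.Agent.Helper67_MA3.ParamC

set_option autoImplicit false

namespace Helper67_MA3

open Finset Classical Helper42_MA Helper67_MA2

section
variable {n : ℕ}

/-- Marks of type one: centre label (with a flag: the centre needs an exit), exit label, entry
label. -/
abbrev MC (n : ℕ) : Type := Option (Fin (n + 1) × Bool) × Option (Fin (n + 1)) × Option (Fin (n + 1))

/-- Marks of type two: exit of a small piece (with direction), entry for Alice, entry for Bob. -/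
abbrev MS : Type := Option Bool × Bool × Bool

/-- Entry with a smaller label in the component of the exit. -/
def hasE (z : SimpleGraph (Fin n)) (mk : Fin n → MC n) (s : Fin n) : Prop :=
  ∃ l, (mk s).2.1 = some l ∧ ∃ u', z.Reachable s u' ∧ ∃ l', (mk u').2.2 = some l' ∧ l' < l

/-- The flagged centre chosen in a set. -/
noncomputable def ctrB (mk : Fin n → MC n) (T : Finset (Fin n)) (s : Fin n) : Fin n :=
  if h : (T.filter (fun m => ∃ k, (mk m).1 = some (k, true))).Nonempty then
    (T.filter (fun m => ∃ k, (mk m).1 = some (k, true))).min' h else s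

theorem ctrB_reach (mk : Fin n → MC n) (T : Finset (Fin n)) (s : Fin n) (G : SimpleGraph (Fin n))
    (hT : ∀ v ∈ T, G.Reachable s v) : G.Reachable s (ctrB mk T s) := by
  unfold ctrB
  split_ifs with h
  · exact hT _ (Finset.mem_filter.mp (Finset.min'_mem _ h)).1
  · exact SimpleGraph.Reachable.refl s

/-- The local conditions. -/
def Loc (m : ℕ) (mk : Fin n → MC n) (m0 : Fin n) (y : SimpleGraph (Fin n)) (s s' : Fin n)
    (T : ℕ → Finset (Fin n)) (T' : Finset (Fin n)) (hx : Prop) : Prop :=
  (∃ j < m, ∃ v ∈ T j, (mk v).1 ≠ none ∨ v = m0) ∧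
  (∀ k, (mk s).1 = some (k, false) →
    ∃ j < m, ∃ v ∈ T j, (∃ k' b, (mk v).1 = some (k', b) ∧ k' < k) ∨ v = m0) ∧
  (∀ k, (mk s).2.2 = some k →
    ∃ j < m, ∃ v ∈ T j, (∃ k' b, (mk v).1 = some (k', b) ∧ k' ≤ k) ∨ v = m0) ∧
  (∀ k, (mk s).2.1 = some k → (mk (ctrB mk (T 0) s)).1 = some (k, true)) ∧
  ((mk s).2.1 ≠ none → hx ∨ hasE y mk s) ∧
  ((mk s).2.1 ≠ none → (mk s').2.1 ≠ none → s ≠ s' → ctrB mk (T 0) s ≠ ctrB mk T' s')

theorem Loc.sound {m : ℕ} {mk : Fin n → MC n} {m0 : Fin n} {x y : SimpleGraph (Fin n)}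
    {T : Fin n → ℕ → Finset (Fin n)}
    (hT : ∀ s j, ∀ v ∈ T s j, (x ⊔ y).Reachable s v)
    (hcount : (univ.filter (fun s => (mk s).2.1 ≠ none)).card
      = (univ.filter (fun s => ∃ k, (mk s).1 = some (k, true))).card)
    (h : ∀ s s', Loc m mk m0 y s s' (T s) (T s' 0) (hasE x mk s)) : (x ⊔ y).Connected := by
  set X := univ.filter (fun s => (mk s).2.1 ≠ none) with hX
  set B := univ.filter (fun s => ∃ k, (mk s).1 = some (k, true)) with hB
  have himg : X.image (fun s => ctrB mk (T s 0) s) ⊆ B := by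
    intro u hu
    obtain ⟨s, hs, rfl⟩ := Finset.mem_image.mp hu
    rw [hX, Finset.mem_filter] at hs
    obtain ⟨k, hk⟩ := Option.ne_none_iff_exists'.mp hs.2
    rw [hB, Finset.mem_filter]
    exact ⟨Finset.mem_univ _, k, (h s s).2.2.2.1 k hk⟩
  have hcard : (X.image (fun s => ctrB mk (T s 0) s)).card = X.card := by
    apply Finset.card_image_of_injOn
    intro s hs s' hs' hss
    by_contra hne
    rw [Finset.mem_coe, hX, Finset.mem_filter] at hs hs'
    exact (h s s').2.2.2.2.2 hs.2 hs'.2 hne hss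
  have heq : X.image (fun s => ctrB mk (T s 0) s) = B :=
    Finset.eq_of_subset_of_card_le himg (by rw [hcard, hcount])
  have hcen : ∀ K : ℕ, ∀ v (k : Fin (n + 1)) (b : Bool), (mk v).1 = some (k, b) → (k : ℕ) ≤ K →
      (x ⊔ y).Reachable v m0 := by
    intro K
    induction K using Nat.strong_induction_on with
    | _ K ih =>
      intro v k b hv hk
      have lower : ∀ (u : Fin n) (k' : Fin (n + 1)), k' < k →
          ((∃ k'' b, (mk u).1 = some (k'', b) ∧ k'' ≤ k') ∨ u = m0) → (x ⊔ y).Reachable u m0 := by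
        rintro u k' hk' (⟨k'', b', h1, h2⟩ | rfl)
        · rw [Fin.lt_def] at hk'
          rw [Fin.le_def] at h2
          exact ih k'' (by omega) u k'' b' h1 le_rfl
        · exact SimpleGraph.Reachable.refl _
      cases b with
      | false =>
        obtain ⟨j, _, u, hu, h1⟩ := (h v v).2.1 k hv
        refine (hT v j u hu).trans ?_
        rcases h1 with ⟨k', b', h2, h3⟩ | rfl
        · exact lower u k' h3 (Or.inl ⟨k', b', h2, le_rfl⟩)
        · exact SimpleGraph.Reachable.refl _
      | true =>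
        have hvB : v ∈ B := by rw [hB, Finset.mem_filter]; exact ⟨Finset.mem_univ _, k, hv⟩
        rw [← heq] at hvB
        obtain ⟨s, hs, hsv⟩ := Finset.mem_image.mp hvB
        replace hsv : ctrB mk (T s 0) s = v := hsv
        rw [hX, Finset.mem_filter] at hs
        obtain ⟨l, hl⟩ := Option.ne_none_iff_exists'.mp hs.2
        have h4 := (h s s).2.2.2.1 l hl
        rw [hsv, hv] at h4
        have hlk : k = l := by
          have h5 := Option.some.inj h4
          exact congrArg Prod.fst h5
        have hvs : (x ⊔ y).Reachable v s := by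
          have := ctrB_reach mk (T s 0) s (x ⊔ y) (hT s 0)
          rw [hsv] at this
          exact this.symm
        have key : ∀ z : SimpleGraph (Fin n), z ≤ x ⊔ y → hasE z mk s →
            (x ⊔ y).Reachable s m0 := by
          rintro z hz ⟨l1, hl1, u', hu', l', hl', hlt⟩
          rw [hl] at hl1
          have e : l1 = l := (Option.some.inj hl1).symm
          rw [e, ← hlk] at hlt
          refine (hu'.mono hz).trans ?_
          obtain ⟨j, _, u, hu, h6⟩ := (h u' u').2.2.1 l' hl'
          exact (hT u' j u hu).trans (lower u l' hlt h6)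
        refine hvs.trans ?_
        rcases (h s s).2.2.2.2.1 hs.2 with h3 | h3
        · exact key x le_sup_left h3
        · exact key y le_sup_right h3
  have hall : ∀ s, (x ⊔ y).Reachable s m0 := by
    intro s
    obtain ⟨j, _, u, hu, h1⟩ := (h s s).1
    refine (hT s j u hu).trans ?_
    rcases h1 with h1 | rfl
    · obtain ⟨⟨k, b⟩, hk⟩ := Option.ne_none_iff_exists'.mp h1
      exact hcen k u k b hk le_rfl
    · exact SimpleGraph.Reachable.refl _
  have : Nonempty (Fin n) := ⟨m0⟩
  exact ⟨fun u v => (hall u).trans (hall v).symm⟩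

/-! ### the chain of pieces -/

/-- The marked exit found among the looked up vertices. -/
noncomputable def xs (ms : Fin n → MS) (U : Finset (Fin n)) (e : Fin n) : Fin n :=
  if h : (U.filter (fun u => (ms u).1 ≠ none)).Nonempty then
    (U.filter (fun u => (ms u).1 ≠ none)).min' h else e

theorem xs_mem (ms : Fin n → MS) (U : Finset (Fin n)) (e : Fin n) (he : e ∈ U) : xs ms U e ∈ U := by
  unfold xs
  split_ifs with h
  · exact (Finset.mem_filter.mp (Finset.min'_mem _ h)).1
  · exact he

/-- The starting point of the next run; `f` is the pointer of Alice, `a` her representatives. -/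
noncomputable def nxt (f a : Fin n → Fin n) (y' y : SimpleGraph (Fin n)) (ms : Fin n → MS) (D : ℕ)
    (e : Fin n) : Fin n :=
  if (ms (xs ms (exU f y' e (D + 1)) e)).1 = some true then a (xs ms (exU f y' e (D + 1)) e)
  else if (ms (xs ms (exU f y' e (D + 1)) e)).1 = some false then
    rep y (fun v => (ms v).2.2) (xs ms (exU f y' e (D + 1)) e)
  else e

theorem nxt_congr (f a f2 a2 : Fin n → Fin n) (y' y : SimpleGraph (Fin n)) (ms : Fin n → MS) (D : ℕ)
    (e : Fin n) (h : ∀ u ∈ exU f y' e (D + 1), f2 u = f u ∧ a2 u = a u) :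
    nxt f2 a2 y' y ms D e = nxt f a y' y ms D e := by
  have h1 := exU_congr f f2 y' e (D + 1) (fun u hu => (h u hu).1)
  have h2 := (h _ (xs_mem ms _ e (start_mem_exU f y' e D))).2
  unfold nxt
  rw [h1, h2]

/-- The starting points of the runs. -/
noncomputable def sdC (f a : Fin n → Fin n) (y' y : SimpleGraph (Fin n)) (ms : Fin n → MS) (D : ℕ)
    (s : Fin n) (j : ℕ) : Fin n := (nxt f a y' y ms D)^[j] s

/-- The set discovered in run `j`. -/
noncomputable def TC (f a : Fin n → Fin n) (y' y : SimpleGraph (Fin n)) (ms : Fin n → MS) (D : ℕ)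
    (s : Fin n) (j : ℕ) : Finset (Fin n) := exT f y' (sdC f a y' y ms D s j) (D + 1)

/-- The set looked up in run `j`. -/
noncomputable def UC (f a : Fin n → Fin n) (y' y : SimpleGraph (Fin n)) (ms : Fin n → MS) (D : ℕ)
    (s : Fin n) (j : ℕ) : Finset (Fin n) := exU f y' (sdC f a y' y ms D s j) (D + 1)

theorem sdC_zero (f a : Fin n → Fin n) (y' y : SimpleGraph (Fin n)) (ms : Fin n → MS) (D : ℕ)
    (s : Fin n) : sdC f a y' y ms D s 0 = s := rfl

theorem sdC_succ (f a : Fin n → Fin n) (y' y : SimpleGraph (Fin n)) (ms : Fin n → MS) (D : ℕ)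
    (s : Fin n) (j : ℕ) : sdC f a y' y ms D s (j + 1) = nxt f a y' y ms D (sdC f a y' y ms D s j) :=
  Function.iterate_succ_apply' _ _ _

theorem sdC_congr (f a f2 a2 : Fin n → Fin n) (y' y : SimpleGraph (Fin n)) (ms : Fin n → MS)
    (D : ℕ) (s : Fin n) (j : ℕ)
    (h : ∀ i < j, ∀ u ∈ UC f a y' y ms D s i, f2 u = f u ∧ a2 u = a u) :
    sdC f2 a2 y' y ms D s j = sdC f a y' y ms D s j := by
  induction j with
  | zero => rw [sdC_zero, sdC_zero]
  | succ j ih =>
    have h1 := ih (fun i hi => h i (by omega))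
    have h2 := h j (Nat.lt_succ_self j)
    unfold UC at h2
    rw [sdC_succ, sdC_succ, h1]
    generalize sdC f a y' y ms D s j = e at h2 ⊢
    exact nxt_congr f a f2 a2 y' y ms D e h2

theorem TC_congr (f a f2 a2 : Fin n → Fin n) (y' y : SimpleGraph (Fin n)) (ms : Fin n → MS)
    (D : ℕ) (s : Fin n) (j : ℕ)
    (h : ∀ i ≤ j, ∀ u ∈ UC f a y' y ms D s i, f2 u = f u ∧ a2 u = a u) :
    TC f2 a2 y' y ms D s j = TC f a y' y ms D s j := by
  have h1 := sdC_congr f a f2 a2 y' y ms D s j (fun i hi => h i (by omega))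
  have h2 := h j le_rfl
  unfold UC at h2
  unfold TC
  rw [h1]
  generalize sdC f a y' y ms D s j = e at h2 ⊢
  exact exT_congr f f2 y' e _ (fun u hu => (h2 u hu).1)

theorem sdC_reachable (x y : SimpleGraph (Fin n)) (bl : Fin n → ℕ) (ms : Fin n → MS) (D : ℕ)
    (s : Fin n) (j : ℕ) :
    (x ⊔ y).Reachable s (sdC (ptr (restr bl x)) (rep x (fun v => (ms v).2.1)) (restr bl y) y ms D s j)
    := by
  induction j with
  | zero => rw [sdC_zero]
  | succ j ih =>
    refine ih.trans ?_
    rw [sdC_succ]
    generalize sdC (ptr (restr bl x)) (rep x (fun v => (ms v).2.1)) (restr bl y) y ms D s j = e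
    have h1 : (x ⊔ y).Reachable e (xs ms (exU (ptr (restr bl x)) (restr bl y) e (D + 1)) e) := by
      have h2 := xs_mem ms _ e (start_mem_exU (ptr (restr bl x)) (restr bl y) e D)
      exact (exT_reachable (restr bl x) (restr bl y) _ (ptr_reachable _) _ _ _
        (exU_subset_exT _ _ _ _ h2)).mono (sup_le_sup (restr_le _ _) (restr_le _ _))
    unfold nxt
    split_ifs with h3 h4
    · exact h1.trans ((rep_reachable x _ _).mono le_sup_left)
    · exact h1.trans ((rep_reachable y _ _).mono le_sup_right)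
    · exact SimpleGraph.Reachable.refl _

theorem TC_reachable (x y : SimpleGraph (Fin n)) (bl : Fin n → ℕ) (ms : Fin n → MS) (D : ℕ)
    (s : Fin n) (j : ℕ) (v : Fin n)
    (hv : v ∈ TC (ptr (restr bl x)) (rep x (fun v => (ms v).2.1)) (restr bl y) y ms D s j) :
    (x ⊔ y).Reachable s v :=
  (sdC_reachable x y bl ms D s j).trans
    ((exT_reachable (restr bl x) (restr bl y) _ (ptr_reachable _) _ _ _ hv).mono
      (sup_le_sup (restr_le _ _) (restr_le _ _)))

end

end Helper67_MA3
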