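import Pool.Agent.Helper67_MA3.Nodes

set_option autoImplicit false

namespace Helper67_MA3

open Finset Classical Helper42_MA Helper67_MA2

section
variable {n : ℕ}

/-- Labels. -/
def lab (n k : ℕ) : Fin (n + 1) := Fin.ofNat (n + 1) k

theorem lab_lt {n k k' : ℕ} (h' : k' ≤ n) (hlt : k < k') : lab n k < lab n k' := by
  unfold lab
  rw [Fin.lt_def]
  simp only [Fin.ofNat_eq_cast, Fin.val_natCast]
  rw [Nat.mod_eq_of_lt (by omega), Nat.mod_eq_of_lt (by omega)]
  exact hlt

theorem lab_le {n k k' : ℕ} (h' : k' ≤ n) (hle : k ≤ k') : lab n k ≤ lab n k' := by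
  unfold lab
  rw [Fin.le_def]
  simp only [Fin.ofNat_eq_cast, Fin.val_natCast]
  rw [Nat.mod_eq_of_lt (by omega), Nat.mod_eq_of_lt (by omega)]
  exact hle

/-- Pigeonhole for residue classes. -/
theorem exists_residue {V : Type} (S : Finset V) (δ : V → ℕ) (d : ℕ) (hd : 1 ≤ d) :
    ∃ i < d, (S.filter (fun u => δ u % d = i)).card ≤ S.card / d := by
  by_contra hcon
  push Not at hcon
  have h1 : S.card = ∑ i ∈ Finset.range d, (S.filter (fun u => δ u % d = i)).card := by
    apply Finset.card_eq_sum_card_fiberwise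
    intro u _
    simp only [Finset.coe_range, Set.mem_Iio]
    exact Nat.mod_lt _ (by omega)
  have h2 : ∑ i ∈ Finset.range d, (S.card / d + 1) ≤
      ∑ i ∈ Finset.range d, (S.filter (fun u => δ u % d = i)).card := by
    apply Finset.sum_le_sum
    intro i hi
    exact hcon i (Finset.mem_range.mp hi)
  rw [← h1, Finset.sum_const, Finset.card_range, smul_eq_mul] at h2
  have h3 := Nat.div_add_mod S.card d
  have h4 := Nat.mod_lt S.card (show 0 < d by omega)
  nlinarith

/-- The representative found through a set of marks of minimisers. -/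
theorem rep_amin (x : SimpleGraph (Fin n)) (δ : Fin n → ℕ) (P : Fin n → Bool) (A : Finset (Fin n))
    (hP : ∀ p, P p = true ↔ ∃ b ∈ A, amin x δ b = p) (u : Fin n) (hu : u ∈ A) :
    rep x P u = amin x δ u := by
  apply rep_eq_of_unique
  · exact (hP _).mpr ⟨u, hu, rfl⟩
  · exact amin_reachable x δ u
  · intro p' hp' hup'
    obtain ⟨b, _, rfl⟩ := (hP p').mp hp'
    have h1 : x.Reachable u b := hup'.trans (amin_reachable x δ b).symm
    exact (amin_congr x δ h1).symm

/-- One step towards the root. -/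
theorem amin_depth (x G : SimpleGraph (Fin n)) (hxG : x ≤ G) (hx : Cl x) (δ : Fin n → ℕ)
    (hδs : ∀ u u', G.Adj u u' → δ u ≤ δ u' + 1) {u u' : Fin n} (hu : x.Adj u u')
    (h : δ u' + 1 = δ u) : δ (amin x δ u) + 1 = δ u := by
  have h1 : δ (amin x δ u) ≤ δ u' := amin_le x δ hu.reachable
  rcases hx u (amin x δ u) (amin_reachable x δ u) with h2 | h2
  · rw [← h2] at h1; omega
  · have := hδs _ _ (hxG h2)
    omega

theorem exists_cert (x y : SimpleGraph (Fin n)) (hx : Cl x) (hy : Cl y) (hG : (x ⊔ y).Connected)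
    (bl : Fin n → ℕ) (D d t : ℕ) (hd : 1 ≤ d)
    (ht : Nat.card (restr bl x ⊔ restr bl y).ConnectedComponent ≤ t) (M1 : Finset (Fin n))
    (hM1 : ∀ e, D + 1 ≤ (exT (ptr (restr bl x)) (restr bl y) e (D + 1)).card →
      ∃ v ∈ exT (ptr (restr bl x)) (restr bl y) e (D + 1), v ∈ M1) :
    ∃ (mk : Fin n → MC n) (ms : Fin n → MS) (m0 : Fin n),
      (∀ s s', Loc (d + 1) mk m0 y s s'
        (TC (ptr (restr bl x)) (rep x (fun v => (ms v).2.1)) (restr bl y) y ms D s)
        (TC (ptr (restr bl x)) (rep x (fun v => (ms v).2.1)) (restr bl y) y ms D s' 0)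
        (hasE x mk s)) ∧
      (univ.filter (fun s => (mk s).2.1 ≠ none)).card
        = (univ.filter (fun s => ∃ k, (mk s).1 = some (k, true))).card ∧
      (univ.filter (fun v => mk v ≠ (none, none, none))).card ≤ t / d + 3 * M1.card ∧
      (univ.filter (fun v => ms v ≠ (none, false, false))).card ≤ 3 * t := by
  obtain ⟨r⟩ := hG.nonempty
  obtain ⟨N, hN1, hN2, hN3, hN4⟩ := exists_nodes bl x y D M1 hM1
  obtain ⟨δ, hδn, hδ0, hδs, hδe, hδN⟩ := exists_depth (x ⊔ y) hG N r
  set H := restr bl x ⊔ restr bl y with hH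
  set MM := univ.image N with hMM
  have hMMs : ∀ v, N v ∈ MM := fun v => Finset.mem_image_of_mem _ (Finset.mem_univ v)
  have hsN : ∀ v, Sm bl x y D (N v) ↔ Sm bl x y D v := fun v => (Sm.congr (hN2 v)).symm
  have hNN : ∀ v, Sm bl x y D v → N (N v) = N v := fun v hv => (hN3 v (N v) hv (hN2 v)).symm
  have hNc : ∀ u v, N u = N v → H.Reachable u v := by
    intro u v h
    have h1 := hN2 v
    rw [← h] at h1
    exact (hN2 u).trans h1.symm
  have hex : ∀ a, ∃ u u', a ∈ MM → a ≠ N r →
      (x ⊔ y).Adj u u' ∧ N u = a ∧ δ u' + 1 = δ u := by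
    intro a
    by_cases ha : a ∈ MM ∧ a ≠ N r
    · obtain ⟨v, _, rfl⟩ := Finset.mem_image.mp ha.1
      obtain ⟨u, u', h1, h2, h3⟩ := hδe v ha.2
      refine ⟨u, u', fun _ _ => ⟨h1, h2, ?_⟩⟩
      rw [h3, hδN u v h2]
    · exact ⟨r, r, fun h1 h2 => absurd ⟨h1, h2⟩ ha⟩
  choose ex en hexen using hex
  set MB := MM.filter (fun a => ¬ Sm bl x y D a ∧ a ≠ N r) with hMB
  set MSs := MM.filter (fun a => Sm bl x y D a) with hMSs
  obtain ⟨i, hi, hcount⟩ := exists_residue MSs δ d hd
  set MSi := MSs.filter (fun a => δ a % d = i) with hMSi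
  set X := MB.image ex with hX
  set Y := MB.image en with hY
  set SE := MSs.filter (fun a => a ≠ N r) with hSE
  set E := SE.image ex with hE
  set AX := (SE.filter (fun a => x.Adj (ex a) (en a))).image ex with hAX
  set AY := (SE.filter (fun a => ¬ x.Adj (ex a) (en a))).image ex with hAY
  set mk : Fin n → MC n := fun v =>
    (if v ∈ MB then some (lab n (δ (ex v)), true)
      else if v ∈ MSi then some (lab n (δ v), false) else none,
     if v ∈ X then some (lab n (δ v)) else none,
     if v ∈ Y then some (lab n (δ v)) else none) with hmk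
  set ms : Fin n → MS := fun v =>
    (if v ∈ E then some (decide (x.Adj v (en (N v)))) else none,
      decide (v ∈ AX.image (amin x δ)), decide (v ∈ AY.image (amin y δ))) with hms
  -- membership facts
  have hMBm : ∀ a ∈ MB, a ∈ MM ∧ ¬ Sm bl x y D a ∧ a ≠ N r := fun a ha => by
    rw [hMB, Finset.mem_filter] at ha; exact ⟨ha.1, ha.2.1, ha.2.2⟩
  have hMB1 : MB ⊆ M1 := by
    intro a ha
    obtain ⟨h1, h2, _⟩ := hMBm a ha
    obtain ⟨v, _, rfl⟩ := Finset.mem_image.mp h1
    exact (hN4 v (fun h => h2 ((hsN v).mpr h))).1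
  have hMSm : ∀ a ∈ MSs, N a = a ∧ Sm bl x y D a := by
    intro a ha
    rw [hMSs, Finset.mem_filter] at ha
    obtain ⟨v, _, rfl⟩ := Finset.mem_image.mp ha.1
    exact ⟨hNN v ((hsN v).mp ha.2), ha.2⟩
  have hSEm : ∀ a ∈ SE, a ∈ MSs ∧ a ≠ N r := fun a ha => by
    rw [hSE, Finset.mem_filter] at ha; exact ha
  have hexB : ∀ a ∈ MB, (x ⊔ y).Adj (ex a) (en a) ∧ N (ex a) = a ∧ δ (en a) + 1 = δ (ex a) :=
    fun a ha => hexen a (hMBm a ha).1 (hMBm a ha).2.2
  have hexS : ∀ a ∈ SE, (x ⊔ y).Adj (ex a) (en a) ∧ N (ex a) = a ∧ δ (en a) + 1 = δ (ex a) := by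
    intro a ha
    obtain ⟨h1, h2⟩ := hSEm a ha
    rw [hMSs, Finset.mem_filter] at h1
    exact hexen a h1.1 h2
  have hmk1B : ∀ a ∈ MB, (mk a).1 = some (lab n (δ (ex a)), true) := by
    intro a ha; rw [hmk]; simp only; rw [if_pos ha]
  have hmk1S : ∀ a ∈ MSi, (mk a).1 = some (lab n (δ a), false) := by
    intro a ha
    have h1 : a ∉ MB := fun h => (hMBm a h).2.1 (hMSm a (Finset.mem_filter.mp ha).1).2
    rw [hmk]; simp only; rw [if_neg h1, if_pos ha]
  have hmk1t : ∀ a k, (mk a).1 = some (k, true) → a ∈ MB := by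
    intro a k h
    by_contra hcon
    rw [hmk] at h; simp only at h
    rw [if_neg hcon] at h
    split_ifs at h with h2
    simp only [Option.some.injEq, Prod.mk.injEq] at h
    exact absurd h.2 (by simp)
  have hmk1f : ∀ a k, (mk a).1 = some (k, false) → a ∈ MSi ∧ k = lab n (δ a) := by
    intro a k h
    rw [hmk] at h; simp only at h
    split_ifs at h with h1 h2
    · simp only [Option.some.injEq, Prod.mk.injEq] at h
      exact absurd h.2 (by simp)
    · simp only [Option.some.injEq, Prod.mk.injEq] at h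
      exact ⟨h2, h.1.symm⟩
  have hmk2 : ∀ a k, (mk a).2.1 = some k → a ∈ X ∧ k = lab n (δ a) := by
    intro a k h
    rw [hmk] at h; simp only at h
    split_ifs at h with h1
    exact ⟨h1, (Option.some.inj h).symm⟩
  have hmk2' : ∀ a, (mk a).2.1 ≠ none ↔ a ∈ X := by
    intro a; rw [hmk]; simp only; split_ifs with h <;> simp [h]
  have hmk3 : ∀ a k, (mk a).2.2 = some k → k = lab n (δ a) := by
    intro a k h
    rw [hmk] at h; simp only at h
    split_ifs at h with h1
    exact (Option.some.inj h).symm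
  have hmk3' : ∀ a ∈ Y, (mk a).2.2 = some (lab n (δ a)) := by
    intro a ha; rw [hmk]; simp only; rw [if_pos ha]
  have hms1 : ∀ a, (ms a).1 ≠ none → a ∈ E := by
    intro a h
    by_contra hcon
    rw [hms] at h; simp only at h
    rw [if_neg hcon] at h
    exact h rfl
  have hms1' : ∀ a ∈ E, (ms a).1 = some (decide (x.Adj a (en (N a)))) := by
    intro a ha; rw [hms]; simp only; rw [if_pos ha]
  -- one step of the chain
  have hstep : ∀ v, Sm bl x y D v → N v ≠ N r →
      δ (nxt (ptr (restr bl x)) (rep x (fun v => (ms v).2.1)) (restr bl y) y ms D v) + 1 = δ v := by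
    intro v hv hvr
    have haS : N v ∈ SE := by
      rw [hSE, Finset.mem_filter, hMSs, Finset.mem_filter]
      exact ⟨⟨hMMs v, (hsN v).mpr hv⟩, hvr⟩
    obtain ⟨a1, a2, a3⟩ := hexS (N v) haS
    have huv : δ (ex (N v)) = δ v := hδN _ _ a2
    have hxs : xs ms (exU (ptr (restr bl x)) (restr bl y) v (D + 1)) v = ex (N v) := by
      rw [hv.full]
      have hmem : ex (N v) ∈ (compF (restr bl x ⊔ restr bl y) v).filter
          (fun u => (ms u).1 ≠ none) := by
        rw [Finset.mem_filter, mem_compF]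
        refine ⟨hNc v (ex (N v)) a2.symm, ?_⟩
        rw [hms1' _ (Finset.mem_image_of_mem _ haS)]
        simp
      have huniq : ∀ w ∈ (compF (restr bl x ⊔ restr bl y) v).filter (fun u => (ms u).1 ≠ none),
          w = ex (N v) := by
        intro w hw
        rw [Finset.mem_filter, mem_compF] at hw
        obtain ⟨b, hb, rfl⟩ := Finset.mem_image.mp (hms1 w hw.2)
        have h1 := hN3 v (ex b) hv hw.1
        rw [(hexS b hb).2.1] at h1
        rw [h1]
      unfold xs
      rw [dif_pos ⟨_, hmem⟩]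
      exact huniq _ (Finset.min'_mem _ _)
    have hms2 : (ms (ex (N v))).1 = some (decide (x.Adj (ex (N v)) (en (N v)))) := by
      rw [hms1' _ (Finset.mem_image_of_mem _ haS), a2]
    unfold nxt
    rw [hxs, hms2]
    by_cases hadj : x.Adj (ex (N v)) (en (N v))
    · rw [if_pos (by simp [hadj])]
      have h1 : rep x (fun v => (ms v).2.1) (ex (N v)) = amin x δ (ex (N v)) := by
        apply rep_amin x δ _ AX
        · intro p
          rw [hms]
          simp only [decide_eq_true_iff, Finset.mem_image]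
        · exact Finset.mem_image_of_mem _ (Finset.mem_filter.mpr ⟨haS, hadj⟩)
      rw [h1, amin_depth x (x ⊔ y) le_sup_left hx δ hδs hadj a3, huv]
    · rw [if_neg (by simp [hadj]), if_pos (by simp [hadj])]
      have hadj2 : y.Adj (ex (N v)) (en (N v)) := by
        rw [SimpleGraph.sup_adj] at a1
        exact a1.resolve_left hadj
      have h1 : rep y (fun v => (ms v).2.2) (ex (N v)) = amin y δ (ex (N v)) := by
        apply rep_amin y δ _ AY
        · intro p
          rw [hms]
          simp only [decide_eq_true_iff, Finset.mem_image]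
        · exact Finset.mem_image_of_mem _ (Finset.mem_filter.mpr ⟨haS, hadj⟩)
      rw [h1, amin_depth y (x ⊔ y) le_sup_right hy δ hδs hadj2 a3, huv]
  set sq : Fin n → ℕ → Fin n := fun s j =>
    sdC (ptr (restr bl x)) (rep x (fun v => (ms v).2.1)) (restr bl y) y ms D s j with hsq
  have hsq0 : ∀ s, sq s 0 = s := fun s => sdC_zero _ _ _ _ _ _ _
  have hchain : ∀ s j, (∀ i < j, Sm bl x y D (sq s i) ∧ N (sq s i) ≠ N r) →
      δ (sq s j) + j = δ s := by
    intro s j
    induction j with
    | zero => intro _; rw [hsq0]; rfl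
    | succ j ih =>
      intro h
      have h1 := ih (fun i hi => h i (by omega))
      have h2 := hstep (sq s j) (h j (by omega)).1 (h j (by omega)).2
      have h3 : sq s (j + 1) = nxt (ptr (restr bl x)) (rep x (fun v => (ms v).2.1)) (restr bl y) y
        ms D (sq s j) := sdC_succ _ _ _ _ _ _ _ _
      rw [h3]
      omega
  have hTC : ∀ s j, N (sq s j) ∈ TC (ptr (restr bl x)) (rep x (fun v => (ms v).2.1)) (restr bl y) y
      ms D s j := fun s j => hN1 (sq s j)
  have hstop : ∀ s, ∃ j, ¬ Sm bl x y D (sq s j) ∨ N (sq s j) = N r := by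
    intro s
    by_contra hcon
    push Not at hcon
    have h1 := hchain s (δ s) (fun i _ => hcon i)
    exact (hcon (δ s)).2 (hδ0 _ (by omega))
  -- the first stop
  have hfirst : ∀ s, ∃ j, (¬ Sm bl x y D (sq s j) ∨ N (sq s j) = N r) ∧
      ∀ i < j, Sm bl x y D (sq s i) ∧ N (sq s i) ≠ N r := by
    intro s
    refine ⟨Nat.find (hstop s), Nat.find_spec (hstop s), fun i hi => ?_⟩
    have := Nat.find_min (hstop s) hi
    push Not at this
    exact this
  -- label found at a stop
  have hlabstop : ∀ s j, (¬ Sm bl x y D (sq s j) ∨ N (sq s j) = N r) →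
      (mk (N (sq s j))).1 = some (lab n (δ (sq s j)), true) ∨ N (sq s j) = N r := by
    intro s j h
    by_cases hr : N (sq s j) = N r
    · exact Or.inr hr
    · left
      have hB : N (sq s j) ∈ MB := by
        rw [hMB, Finset.mem_filter]
        exact ⟨hMMs _, fun h2 => (h.resolve_right hr) ((hsN _).mp h2), hr⟩
      rw [hmk1B _ hB]
      have : δ (ex (N (sq s j))) = δ (sq s j) := hδN _ _ (hexB _ hB).2.1
      rw [this]
  have hlabres : ∀ s j, Sm bl x y D (sq s j) → δ (sq s j) % d = i →
      (mk (N (sq s j))).1 = some (lab n (δ (sq s j)), false) := by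
    intro s j h hres
    have h1 : δ (N (sq s j)) = δ (sq s j) := hδN _ _ (hNN _ h)
    have h2 : N (sq s j) ∈ MSi := by
      rw [hMSi, Finset.mem_filter, hMSs, Finset.mem_filter]
      exact ⟨⟨hMMs _, (hsN _).mpr h⟩, by rw [h1]; exact hres⟩
    rw [hmk1S _ h2, h1]
  have C1 : ∀ s, ∃ j < d, ∃ v ∈ TC (ptr (restr bl x)) (rep x (fun v => (ms v).2.1)) (restr bl y) y
      ms D s j, (∃ k' b, (mk v).1 = some (k', b) ∧ k' ≤ lab n (δ s)) ∨ v = N r := by
    intro s
    obtain ⟨j1, hj1, hj2⟩ := hfirst s
    by_cases hjd : j1 < d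
    · refine ⟨j1, hjd, N (sq s j1), hTC s j1, ?_⟩
      rcases hlabstop s j1 hj1 with h | h
      · left
        refine ⟨_, _, h, lab_le (hδn s) ?_⟩
        have := hchain s j1 hj2
        omega
      · exact Or.inr h
    · have h1 := hchain s j1 hj2
      have hlt : (δ s - i) % d < d := Nat.mod_lt _ (by omega)
      set j0 := (δ s - i) % d with hj0
      have h2 := hchain s j0 (fun i hi => hj2 i (by omega))
      have h3 : δ (sq s j0) % d = i := by
        have e1 := Nat.div_add_mod (δ s - i) d
        have e2 : δ (sq s j0) = i + d * ((δ s - i) / d) := by omega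
        rw [e2, Nat.add_mul_mod_self_left, Nat.mod_eq_of_lt hi]
      refine ⟨j0, hlt, N (sq s j0), hTC s j0, Or.inl ?_⟩
      refine ⟨_, _, hlabres s j0 (hj2 j0 (by omega)).1 h3, lab_le (hδn s) (by omega)⟩
  have C2 : ∀ s k, (mk s).1 = some (k, false) →
      ∃ j < d + 1, ∃ v ∈ TC (ptr (restr bl x)) (rep x (fun v => (ms v).2.1)) (restr bl y) y
        ms D s j, (∃ k' b, (mk v).1 = some (k', b) ∧ k' < k) ∨ v = N r := by
    intro s k hk
    obtain ⟨hsi, rfl⟩ := hmk1f s k hk
    rw [hMSi, Finset.mem_filter] at hsi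
    obtain ⟨hNs, hSs⟩ := hMSm s hsi.1
    obtain ⟨j1, hj1, hj2⟩ := hfirst s
    by_cases hr : N s = N r
    · refine ⟨0, by omega, N (sq s 0), hTC s 0, Or.inr ?_⟩
      rw [hsq0]; exact hr
    have hj1pos : 0 < j1 := by
      by_contra h0
      have : j1 = 0 := by omega
      rw [this, hsq0] at hj1
      rcases hj1 with h | h
      · exact h hSs
      · exact hr h
    by_cases hjd : j1 ≤ d
    · refine ⟨j1, by omega, N (sq s j1), hTC s j1, ?_⟩
      rcases hlabstop s j1 hj1 with h | h
      · left
        refine ⟨_, _, h, lab_lt (hδn s) ?_⟩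
        have := hchain s j1 hj2
        omega
      · exact Or.inr h
    · have h1 := hchain s j1 hj2
      have h2 := hchain s d (fun i hi => hj2 i (by omega))
      have h3 : δ (sq s d) % d = i := by
        have e1 : δ s = δ (sq s d) + d := h2.symm
        have e2 := hsi.2
        rw [e1, Nat.add_mod_right] at e2
        exact e2
      refine ⟨d, by omega, N (sq s d), hTC s d, Or.inl ?_⟩
      exact ⟨_, _, hlabres s d (hj2 d (by omega)).1 h3, lab_lt (hδn s) (by omega)⟩
  have C4 : ∀ a ∈ MB, ctrB mk (TC (ptr (restr bl x)) (rep x (fun v => (ms v).2.1)) (restr bl y) y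
      ms D (ex a) 0) (ex a) = a := by
    intro a ha
    obtain ⟨h1, h2, h3⟩ := hMBm a ha
    obtain ⟨b1, b2, b3⟩ := hexB a ha
    have hTe : TC (ptr (restr bl x)) (rep x (fun v => (ms v).2.1)) (restr bl y) y ms D (ex a) 0
        = exT (ptr (restr bl x)) (restr bl y) (ex a) (D + 1) := by
      unfold TC; rw [sdC_zero]
    rw [hTe]
    have hmem : a ∈ (exT (ptr (restr bl x)) (restr bl y) (ex a) (D + 1)).filter
        (fun m => ∃ k, (mk m).1 = some (k, true)) := by
      rw [Finset.mem_filter]
      have h4 := hN1 (ex a)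
      rw [b2] at h4
      exact ⟨h4, _, hmk1B a ha⟩
    unfold ctrB
    rw [dif_pos ⟨a, hmem⟩]
    apply le_antisymm
    · exact Finset.min'_le _ _ hmem
    · apply Finset.le_min'
      intro m hm
      rw [Finset.mem_filter] at hm
      obtain ⟨hm1, k, hm2⟩ := hm
      have hmB := hmk1t m k hm2
      have h5 := (hN4 (ex a) (fun h => h2 (by rw [← b2]; exact (hsN _).mpr h))).2 m hm1 (hMB1 hmB)
      rw [b2] at h5
      exact h5
  refine ⟨mk, ms, N r, ?_, ?_, ?_, ?_⟩
  · intro s s'
    refine ⟨?_, C2 s, ?_, ?_, ?_, ?_⟩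
    · obtain ⟨j, hj, v, hv, h⟩ := C1 s
      refine ⟨j, by omega, v, hv, ?_⟩
      rcases h with ⟨k', b, h1, _⟩ | h
      · left; rw [h1]; simp
      · exact Or.inr h
    · intro k hk
      rw [hmk3 s k hk]
      obtain ⟨j, hj, v, hv, h⟩ := C1 s
      exact ⟨j, by omega, v, hv, h⟩
    · intro k hk
      obtain ⟨hsX, rfl⟩ := hmk2 s k hk
      obtain ⟨a, ha, rfl⟩ := Finset.mem_image.mp hsX
      rw [C4 a ha]
      exact hmk1B a ha
    · intro hs
      obtain ⟨a, ha, rfl⟩ := Finset.mem_image.mp ((hmk2' s).mp hs)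
      obtain ⟨b1, b2, b3⟩ := hexB a ha
      have hl : (mk (ex a)).2.1 = some (lab n (δ (ex a))) := by
        obtain ⟨k, hk⟩ := Option.ne_none_iff_exists'.mp hs
        rw [hk, (hmk2 _ k hk).2]
      have hl2 := hmk3' (en a) (Finset.mem_image_of_mem _ ha)
      have hlt : lab n (δ (en a)) < lab n (δ (ex a)) := lab_lt (hδn _) (by omega)
      rw [SimpleGraph.sup_adj] at b1
      rcases b1 with h | h
      · exact Or.inl ⟨_, hl, en a, h.reachable, _, hl2, hlt⟩
      · exact Or.inr ⟨_, hl, en a, h.reachable, _, hl2, hlt⟩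
    · intro hs hs' hne
      obtain ⟨a, ha, rfl⟩ := Finset.mem_image.mp ((hmk2' s).mp hs)
      obtain ⟨a', ha', rfl⟩ := Finset.mem_image.mp ((hmk2' s').mp hs')
      rw [C4 a ha, C4 a' ha']
      intro h; exact hne (by rw [h])
  · have e1 : univ.filter (fun s => (mk s).2.1 ≠ none) = X := by
      ext u; simp only [Finset.mem_filter, Finset.mem_univ, true_and]; exact hmk2' u
    have e2 : univ.filter (fun s => ∃ k, (mk s).1 = some (k, true)) = MB := by
      ext u; simp only [Finset.mem_filter, Finset.mem_univ, true_and]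
      exact ⟨fun ⟨k, hk⟩ => hmk1t u k hk, fun h => ⟨_, hmk1B u h⟩⟩
    rw [e1, e2, hX]
    apply Finset.card_image_of_injOn
    intro a ha a' ha' h
    have h1 := (hexB a ha).2.1
    have h2 := (hexB a' ha').2.1
    rw [← h1, ← h2]
    exact congrArg N h
  · have hsub : univ.filter (fun v => mk v ≠ (none, none, none)) ⊆ (MSi ∪ MB) ∪ (X ∪ Y) := by
      intro u hu
      rw [Finset.mem_filter] at hu
      by_contra hcon
      simp only [Finset.mem_union, not_or] at hcon
      apply hu.2
      rw [hmk]; simp only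
      rw [if_neg hcon.1.2, if_neg hcon.1.1, if_neg hcon.2.1, if_neg hcon.2.2]
    have h1 := Finset.card_le_card hsub
    have h2 := Finset.card_union_le (MSi ∪ MB) (X ∪ Y)
    have h3 := Finset.card_union_le MSi MB
    have h4 := Finset.card_union_le X Y
    have h5 : MB.card ≤ M1.card := Finset.card_le_card hMB1
    have h6 : X.card ≤ MB.card := Finset.card_image_le
    have h7 : Y.card ≤ MB.card := Finset.card_image_le
    have h8 : MSs.card ≤ t := by
      refine le_trans ?_ ht
      rw [Nat.card_eq_fintype_card, ← Finset.card_univ]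
      apply Finset.card_le_card_of_injOn (fun a => H.connectedComponentMk a)
      · intro a _; exact Finset.mem_coe.mpr (Finset.mem_univ _)
      · intro a ha b hb hab
        obtain ⟨p1, p2⟩ := hMSm a ha
        obtain ⟨q1, _⟩ := hMSm b hb
        have := hN3 a b p2 (SimpleGraph.ConnectedComponent.eq.mp hab)
        rw [← p1, ← q1, this]
    have h9 : MSs.card / d ≤ t / d := Nat.div_le_div_right h8
    omega
  · have hsub : univ.filter (fun v => ms v ≠ (none, false, false)) ⊆
        E ∪ (AX.image (amin x δ) ∪ AY.image (amin y δ)) := by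
      intro u hu
      rw [Finset.mem_filter] at hu
      by_contra hcon
      simp only [Finset.mem_union, not_or] at hcon
      apply hu.2
      rw [hms]; simp only
      rw [if_neg hcon.1, decide_eq_false hcon.2.1, decide_eq_false hcon.2.2]
    have h1 := Finset.card_le_card hsub
    have h2 := Finset.card_union_le E (AX.image (amin x δ) ∪ AY.image (amin y δ))
    have h3 := Finset.card_union_le (AX.image (amin x δ)) (AY.image (amin y δ))
    have h4 : E.card ≤ SE.card := Finset.card_image_le
    have h5 : (AX.image (amin x δ)).card ≤ SE.card :=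
      Finset.card_image_le.trans (Finset.card_image_le.trans
        (Finset.card_le_card (Finset.filter_subset _ _)))
    have h6 : (AY.image (amin y δ)).card ≤ SE.card :=
      Finset.card_image_le.trans (Finset.card_image_le.trans
        (Finset.card_le_card (Finset.filter_subset _ _)))
    have h7 : SE.card ≤ MSs.card := Finset.card_le_card (Finset.filter_subset _ _)
    have h8 : MSs.card ≤ t := by
      refine le_trans ?_ ht
      rw [Nat.card_eq_fintype_card, ← Finset.card_univ]
      apply Finset.card_le_card_of_injOn (fun a => H.connectedComponentMk a)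
      · intro a _; exact Finset.mem_coe.mpr (Finset.mem_univ _)
      · intro a ha b hb hab
        obtain ⟨p1, p2⟩ := hMSm a ha
        obtain ⟨q1, _⟩ := hMSm b hb
        have := hN3 a b p2 (SimpleGraph.ConnectedComponent.eq.mp hab)
        rw [← p1, ← q1, this]
    omega

end

end Helper67_MA3
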