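import Mathlib

set_option autoImplicit false

namespace Helper67_MA3

open Finset

/-- Positions: the classes of `b` (each of size at most `s`) are packed into blocks of length
`2 s`, no class being cut. -/
theorem exists_pos {n s : ℕ} (hs : 1 ≤ s) (b : Fin n → ℕ)
    (hb : ∀ k, (univ.filter (fun u => b u = k)).card ≤ s) :
    ∃ pos : Fin n → Fin ((n / s + 1) * (2 * s)), Function.Injective pos ∧
      ∀ u v, b u = b v → (pos u : ℕ) / (2 * s) = (pos v : ℕ) / (2 * s) := by
  set S : ℕ → ℕ := fun k => (univ.filter (fun u => b u < k)).card with hS
  set I : Fin n → ℕ := fun u => (univ.filter (fun v => b v = b u ∧ v < u)).card with hI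
  have hSle : ∀ k, S k ≤ n := by
    intro k
    refine (Finset.card_le_univ _).trans ?_
    simp
  have hSmono : ∀ k k', k < k' → S k + (univ.filter (fun u => b u = k)).card ≤ S k' := by
    intro k k' hk
    rw [hS]
    simp only
    rw [← Finset.card_union_of_disjoint]
    · apply Finset.card_le_card
      intro u hu
      simp only [Finset.mem_union, Finset.mem_filter, Finset.mem_univ, true_and] at hu ⊢
      omega
    · rw [Finset.disjoint_left]
      intro u hu hu'
      simp only [Finset.mem_filter, Finset.mem_univ, true_and] at hu hu'
      omega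
  have hIlt : ∀ u, I u < (univ.filter (fun v => b v = b u)).card := by
    intro u
    apply Finset.card_lt_card
    rw [Finset.ssubset_iff_of_subset]
    · exact ⟨u, by simp, by simp⟩
    · intro v hv
      simp only [Finset.mem_filter, Finset.mem_univ, true_and] at hv ⊢
      exact hv.1
  have hIs : ∀ u, I u < s := fun u => (hIlt u).trans_le (hb _)
  set g : Fin n → ℕ := fun u => S (b u) / s with hg
  have hgs : ∀ u, g u * s ≤ S (b u) := fun u => Nat.div_mul_le_self _ _
  have hgs2 : ∀ u, S (b u) < g u * s + s := by
    intro u
    have h1 := Nat.div_add_mod (S (b u)) s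
    have h2 := Nat.mod_lt (S (b u)) (show 0 < s by omega)
    have h3 : g u * s = s * (S (b u) / s) := mul_comm _ _
    omega
  set r : Fin n → ℕ := fun u => S (b u) + I u - g u * s with hr
  have hr2 : ∀ u, r u < 2 * s := by
    intro u
    have h1 := hgs u
    have h2 := hgs2 u
    have h3 := hIs u
    simp only [hr]
    omega
  have hgn : ∀ u, g u ≤ n / s := fun u => Nat.div_le_div_right (hSle _)
  have hlt : ∀ u, g u * (2 * s) + r u < (n / s + 1) * (2 * s) := by
    intro u
    have h1 := hr2 u
    have h2 : (g u + 1) * (2 * s) ≤ (n / s + 1) * (2 * s) :=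
      Nat.mul_le_mul_right _ (by have := hgn u; omega)
    have h3 : (g u + 1) * (2 * s) = g u * (2 * s) + 2 * s := by ring
    omega
  have hdiv : ∀ u, (g u * (2 * s) + r u) / (2 * s) = g u := by
    intro u
    rw [mul_comm, Nat.mul_add_div (by omega), Nat.div_eq_of_lt (hr2 u), add_zero]
  refine ⟨fun u => ⟨g u * (2 * s) + r u, hlt u⟩, ?_, ?_⟩
  · intro u v huv
    have h1 : g u * (2 * s) + r u = g v * (2 * s) + r v := by
      simpa using congrArg Fin.val huv
    have h2 : g u = g v := by rw [← hdiv u, ← hdiv v, h1]
    rw [h2] at h1
    have h3 : r u = r v := by omega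
    have h4 : S (b u) + I u = S (b v) + I v := by
      have e1 := hgs u
      have e2 := hgs v
      simp only [hr] at h3
      rw [h2] at h3 e1
      omega
    rcases lt_trichotomy (b u) (b v) with h5 | h5 | h5
    · have := hSmono _ _ h5
      have := hIlt u
      omega
    · have h6 : I u = I v := by rw [h5] at h4; omega
      rcases lt_trichotomy u v with h7 | h7 | h7
      · exfalso
        have : I u < I v := by
          apply Finset.card_lt_card
          rw [Finset.ssubset_iff_of_subset]
          · exact ⟨u, by simp [h5, h7], by simp⟩
          · intro w hw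
            simp only [Finset.mem_filter, Finset.mem_univ, true_and] at hw ⊢
            exact ⟨hw.1.trans h5, hw.2.trans h7⟩
        omega
      · exact h7
      · exfalso
        have : I v < I u := by
          apply Finset.card_lt_card
          rw [Finset.ssubset_iff_of_subset]
          · exact ⟨v, by simp [h5, h7], by simp⟩
          · intro w hw
            simp only [Finset.mem_filter, Finset.mem_univ, true_and] at hw ⊢
            exact ⟨hw.1.trans h5.symm, hw.2.trans h7⟩
        omega
    · have := hSmono _ _ h5
      have := hIlt v
      omega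
  · intro u v huv
    show (g u * (2 * s) + r u) / (2 * s) = (g v * (2 * s) + r v) / (2 * s)
    rw [hdiv, hdiv]
    simp only [hg, huv]

end Helper67_MA3
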