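import Pool.Agent.Helper67_MA3.Complete
import Pool.Agent.Helper67_MA3.Pack

set_option autoImplicit false

namespace Helper67_MA3

open Finset Classical Helper42_MA Helper67_MA2 Filter

section
variable {n : ℕ}

/-- YES instances (closed graphs). -/
def YesC (n M : ℕ) (b : Fin M → Fin n → ℕ) (t : ℕ) (x y : SimpleGraph (Fin n)) : Prop :=
  Cl x ∧ Cl y ∧ (x ⊔ y).Connected ∧
    ∃ i, Nat.card (restr (b i) x ⊔ restr (b i) y).ConnectedComponent ≤ t

/-- The discovered sets for a graph `x` of Alice. -/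
noncomputable def Tx (bl : Fin n → ℕ) (ms : Fin n → MS) (x y : SimpleGraph (Fin n)) (D : ℕ)
    (s : Fin n) (j : ℕ) : Finset (Fin n) :=
  TC (ptr (restr bl x)) (rep x (fun v => (ms v).2.1)) (restr bl y) y ms D s j

/-- The looked up sets for a graph `x` of Alice. -/
noncomputable def Ux (bl : Fin n → ℕ) (ms : Fin n → MS) (x y : SimpleGraph (Fin n)) (D : ℕ)
    (s : Fin n) (j : ℕ) : Finset (Fin n) :=
  UC (ptr (restr bl x)) (rep x (fun v => (ms v).2.1)) (restr bl y) y ms D s j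

/-- Alice's answers. -/
noncomputable def ans {c : ℕ} (code : Fin n × Fin n × Bool → (Fin c → Bool)) (bl : Fin n → ℕ)
    (mk : Fin n → MC n) (ms : Fin n → MS) (x : SimpleGraph (Fin n)) (u : Fin n) : Fin c → Bool :=
  code (ptr (restr bl x) u, rep x (fun v => (ms v).2.1) u, decide (hasE x mk u))

/-- The bad event. -/
def badC {N m D c : ℕ} (pos : Fin n → Fin N) (inv : Fin N → Fin n)
    (code : Fin n × Fin n × Bool → (Fin c → Bool)) (bl : Fin n → ℕ) (mk : Fin n → MC n)
    (ms : Fin n → MS) (m0 : Fin n) (y : SimpleGraph (Fin n))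
    (v : Fin (m + m) → Fin (D + 1) → Fin N) (β : Fin (m + m) → Fin (D + 1) → Fin c → Bool) : Prop :=
  ∃ (xx : SimpleGraph (Fin n)) (s s' : Fin n),
    (∀ k i, ans code bl mk ms xx (inv (v k i)) = β k i) ∧
    (∀ j < m, ∀ u ∈ Ux bl ms xx y D s j, ∃ k i, v k i = pos u) ∧
    (∀ j < m, ∀ u ∈ Ux bl ms xx y D s' j, ∃ k i, v k i = pos u) ∧
    ¬ Loc m mk m0 y s s' (Tx bl ms xx y D s) (Tx bl ms xx y D s' 0) (hasE xx mk s)

theorem Loc.congr {m : ℕ} {mk : Fin n → MC n} {m0 : Fin n} {y : SimpleGraph (Fin n)} {s s' : Fin n}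
    {T T2 : ℕ → Finset (Fin n)} {T' T2' : Finset (Fin n)} {hx hx2 : Prop} (hm : 1 ≤ m)
    (h1 : ∀ j < m, T j = T2 j) (h2 : T' = T2') (h3 : hx ↔ hx2)
    (h : Loc m mk m0 y s s' T T' hx) : Loc m mk m0 y s s' T2 T2' hx2 := by
  have h0 : T 0 = T2 0 := h1 0 (by omega)
  obtain ⟨c1, c2, c3, c4, c5, c6⟩ := h
  refine ⟨?_, ?_, ?_, ?_, ?_, ?_⟩
  · obtain ⟨j, hj, v, hv, hh⟩ := c1
    exact ⟨j, hj, v, by rw [← h1 j hj]; exact hv, hh⟩
  · intro k hk
    obtain ⟨j, hj, v, hv, hh⟩ := c2 k hk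
    exact ⟨j, hj, v, by rw [← h1 j hj]; exact hv, hh⟩
  · intro k hk
    obtain ⟨j, hj, v, hv, hh⟩ := c3 k hk
    exact ⟨j, hj, v, by rw [← h1 j hj]; exact hv, hh⟩
  · intro k hk
    rw [← h0]; exact c4 k hk
  · intro hs
    exact (c5 hs).imp h3.mp id
  · intro hs hs' hne
    rw [← h0, ← h2]; exact c6 hs hs' hne

theorem not_badC {N m D c : ℕ} (hm : 1 ≤ m) (pos : Fin n → Fin N) (inv : Fin N → Fin n)
    (hinv : ∀ u, inv (pos u) = u)
    (code : Fin n × Fin n × Bool → (Fin c → Bool)) (hcode : Function.Injective code)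
    (bl : Fin n → ℕ) (mk : Fin n → MC n) (ms : Fin n → MS) (m0 : Fin n) (x y : SimpleGraph (Fin n))
    (h : ∀ s s', Loc m mk m0 y s s' (Tx bl ms x y D s) (Tx bl ms x y D s' 0) (hasE x mk s))
    (v : Fin (m + m) → Fin (D + 1) → Fin N) :
    ¬ badC pos inv code bl mk ms m0 y v (fun k i => ans code bl mk ms x (inv (v k i))) := by
  rintro ⟨xx, s, s', h1, h2, h3, h4⟩
  have key : ∀ z, (∀ j < m, ∀ u ∈ Ux bl ms xx y D z j, ∃ k i, v k i = pos u) →
      ∀ j < m, ∀ u ∈ Ux bl ms xx y D z j,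
        (ptr (restr bl x) u = ptr (restr bl xx) u ∧
          rep x (fun v => (ms v).2.1) u = rep xx (fun v => (ms v).2.1) u) ∧
        (hasE xx mk u ↔ hasE x mk u) := by
    intro z hz j hj u hu
    obtain ⟨k, i, hki⟩ := hz j hj u hu
    have h5 := h1 k i
    beta_reduce at h5
    rw [hki, hinv] at h5
    have h6 := hcode h5
    simp only [Prod.mk.injEq] at h6
    exact ⟨⟨h6.1.symm, h6.2.1.symm⟩, by simpa using h6.2.2⟩
  have e1 : ∀ z, (∀ j < m, ∀ u ∈ Ux bl ms xx y D z j, ∃ k i, v k i = pos u) →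
      ∀ j < m, Tx bl ms x y D z j = Tx bl ms xx y D z j := by
    intro z hz j hj
    unfold Tx
    apply TC_congr
    intro i hi u hu
    exact (key z hz i (by omega) u hu).1
  have e3 : hasE xx mk s ↔ hasE x mk s := by
    apply (key s h2 0 (by omega) s _).2
    unfold Ux UC
    rw [sdC_zero]
    exact start_mem_exU _ _ _ _
  exact h4 (Loc.congr hm (e1 s h2) (e1 s' h3 0 (by omega)) e3.symm (h s s'))

/-- The positions looked up. -/
noncomputable def look {N : ℕ} (pos : Fin n → Fin N) (bl : Fin n → ℕ) (ms : Fin n → MS)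
    (x y : SimpleGraph (Fin n)) (D : ℕ) (s : Fin n) (k : ℕ) (i : Fin (D + 1)) : Fin N :=
  pos (exTuple (D + 1) (ptr (restr bl x)) (restr bl y)
    (sdC (ptr (restr bl x)) (rep x (fun v => (ms v).2.1)) (restr bl y) y ms D s k) i)

theorem exists_badC {N m D c s0 : ℕ} (pos : Fin n → Fin N) (inv : Fin N → Fin n)
    (code : Fin n × Fin n × Bool → (Fin c → Bool))
    (bl : Fin n → ℕ) (hbl : ∀ u v, bl u = bl v → (pos u : ℕ) / s0 = (pos v : ℕ) / s0)
    (mk : Fin n → MC n) (ms : Fin n → MS) (m0 : Fin n) (x y : SimpleGraph (Fin n)) (s s' : Fin n)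
    (h : ¬ Loc m mk m0 y s s' (Tx bl ms x y D s) (Tx bl ms x y D s' 0) (hasE x mk s)) :
    ∃ v : Fin (m + m) → Fin (D + 1) → Fin N, SameBlock s0 v ∧
      badC pos inv code bl mk ms m0 y v (fun k i => ans code bl mk ms x (inv (v k i))) := by
  have hblock : ∀ z (k : ℕ) (i : Fin (D + 1)), (look pos bl ms x y D z k i : ℕ) / s0
      = (look pos bl ms x y D z k 0 : ℕ) / s0 := by
    intro z k i
    apply hbl
    have h1 := exTuple_block x y bl
      (sdC (ptr (restr bl x)) (rep x (fun v => (ms v).2.1)) (restr bl y) y ms D z k) D i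
    have h2 := exTuple_block x y bl
      (sdC (ptr (restr bl x)) (rep x (fun v => (ms v).2.1)) (restr bl y) y ms D z k) D 0
    exact h1.trans h2.symm
  have hcov : ∀ z (j : ℕ), ∀ u ∈ Ux bl ms x y D z j, ∃ i, look pos bl ms x y D z j i = pos u := by
    intro z j u hu
    unfold Ux UC at hu
    rw [mem_exU_iff] at hu
    obtain ⟨i, hi⟩ := hu
    exact ⟨i, by unfold look; rw [hi]⟩
  refine ⟨Fin.append (fun k : Fin m => look pos bl ms x y D s k)
    (fun k : Fin m => look pos bl ms x y D s' k), ?_, x, s, s', fun k i => rfl, ?_, ?_, h⟩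
  · intro k i
    induction k using Fin.addCases with
    | left k => rw [Fin.append_left]; exact hblock s k i
    | right k => rw [Fin.append_right]; exact hblock s' k i
  · intro j hj u hu
    obtain ⟨i, hi⟩ := hcov s j u hu
    exact ⟨Fin.castAdd m ⟨j, hj⟩, i, by rw [Fin.append_left]; exact hi⟩
  · intro j hj u hu
    obtain ⟨i, hi⟩ := hcov s' j u hu
    exact ⟨Fin.natAdd m ⟨j, hj⟩, i, by rw [Fin.append_right]; exact hi⟩

end

/-- The number of centres in big pieces. -/
noncomputable def numM (n : ℕ) : ℕ :=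
  ⌊n * (3 * Real.log (Nat.clog 2 n)) / (Nat.clog 2 n ^ 3 : ℕ) + 1
      + n * Real.exp (-(3 * Real.log (Nat.clog 2 n)))⌋₊

theorem exists_code3 {n l : ℕ} (h : n ≤ 2 ^ l) :
    ∃ code : Fin n × Fin n × Bool → (Fin (2 * l + 1) → Bool), Function.Injective code := by
  have : Nonempty (Fin n × Fin n × Bool ↪ (Fin (2 * l + 1) → Bool)) := by
    apply Function.Embedding.nonempty_of_card_le
    simp only [Fintype.card_prod, Fintype.card_fin, Fintype.card_bool, Fintype.card_fun]
    rw [pow_succ, two_mul, pow_add]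
    calc n * (n * 2) = n * n * 2 := by ring
      _ ≤ 2 ^ l * 2 ^ l * 2 := by gcongr
  obtain ⟨e⟩ := this
  exact ⟨e, e.injective⟩

/-- Numerical facts. -/
theorem ev_costC : ∀ᶠ n : ℕ in atTop, ∀ t : ℕ,
    Real.log (Fintype.card (Sparse n (MC n) (none, none, none)
      (t / (Nat.clog 2 n / (170 * Nat.clog 2 (Nat.clog 2 n)) - 1) + 3 * numM n)))
    + Real.log (Fintype.card (Sparse n MS (none, false, false) (3 * t)))
      ≤ 24000 * (t * Real.log (Real.log n)) + 150 * (n / Real.log n) := by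
  filter_upwards [ev_facts] with n hn t
  obtain ⟨h3, e1, e2, e3, hLL, hL, e4, e5, hsq⟩ := hn
  set l := Nat.clog 2 n with hl
  set lam := Nat.clog 2 l with hlam
  set m := l / (170 * lam) with hm
  set LL := Real.log (Real.log n) with hLLdef
  set L := Real.log (n:ℝ) with hLdef
  have hm2 : 2 ≤ m := by
    rw [hm, Nat.le_div_iff_mul_le (by omega)]; omega
  obtain ⟨d, hd⟩ : ∃ d, m = d + 1 := ⟨m - 1, by omega⟩
  have hd1 : m - 1 = d := by omega
  rw [hd1]
  have hdpos : 1 ≤ d := by omega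
  have hd0 : (0:ℝ) < d := by exact_mod_cast hdpos
  have hl0 : (0:ℝ) < l := by linarith
  have hl1 : (1:ℝ) ≤ l := by linarith
  have hn0 : (0:ℝ) < n := by
    have : 0 < n := by omega
    exact_mod_cast this
  have hlogl0 : 0 ≤ Real.log l := Real.log_natCast_nonneg l
  have hlogl : Real.log l ≤ l := by
    have := Real.log_le_sub_one_of_pos hl0
    linarith
  have hlog3 : Real.log l ≤ 3 * LL := by
    have h1 := Real.log_le_log (by linarith) e1
    rw [Real.log_mul (by norm_num) (by linarith)] at h1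
    have h5 : Real.log 3 ≤ 2 := by
      have := Real.log_le_sub_one_of_pos (show (0:ℝ) < 3 by norm_num)
      linarith
    linarith
  have hexp : Real.exp (-(3 * Real.log l)) = 1 / (l:ℝ) ^ 3 := by
    rw [Real.exp_neg, mul_comm, Real.exp_mul, Real.exp_log hl0, one_div]
    congr 1
    exact_mod_cast Real.rpow_natCast (l:ℝ) 3
  have hinv : (1:ℝ) / d ≤ 3400 * (LL / L) := by
    have hm3 : l ≤ 680 * lam * d := by
      have h6 := Nat.mod_lt l (show 0 < 170 * lam by omega)
      have h7 := Nat.div_add_mod l (170 * lam)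
      rw [← hm, hd] at h7
      nlinarith
    have hm3' : (l:ℝ) ≤ 680 * lam * d := by exact_mod_cast hm3
    rw [div_le_iff₀ hd0]
    have h8 : L ≤ 3400 * LL * d := by
      calc L ≤ l := e2
        _ ≤ 680 * lam * d := hm3'
        _ ≤ 680 * (5 * LL) * d := by gcongr
        _ = _ := by ring
    have h9 : 3400 * (LL / L) * d = (3400 * LL * d) / L := by ring
    rw [h9, le_div_iff₀ (by linarith)]
    linarith
  have hnum : (numM n : ℝ) ≤ 3 * (n * Real.log l / (l:ℝ) ^ 3) + 1 + n / (l:ℝ) ^ 3 := by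
    have hfl : (numM n : ℝ) ≤ n * (3 * Real.log l) / (l ^ 3 : ℕ) + 1
        + n * Real.exp (-(3 * Real.log l)) := by
      unfold numM
      apply Nat.floor_le
      positivity
    rw [hexp] at hfl
    have h2 : (n:ℝ) * (3 * Real.log l) / (l ^ 3 : ℕ) = 3 * (n * Real.log l / (l:ℝ) ^ 3) := by
      push_cast; ring
    have h4 : (n:ℝ) * (1 / (l:ℝ) ^ 3) = n / (l:ℝ) ^ 3 := by ring
    rw [h2, h4] at hfl
    exact hfl
  have hK1 : ((t / d + 3 * numM n : ℕ) : ℝ) ≤ t * (1 / d)
      + 3 * (3 * (n * Real.log l / (l:ℝ) ^ 3) + 1 + n / (l:ℝ) ^ 3) := by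
    have h1 : ((t / d : ℕ) : ℝ) ≤ (t:ℝ) / d := Nat.cast_div_le
    push_cast
    have h2 : (t:ℝ) * (1 / d) = t / d := by ring
    rw [h2]
    linarith
  -- marks of type one
  have hcard1 : (Fintype.card (MC n) : ℝ) = (2 * n + 3) * (n + 2) ^ 2 := by
    have : Fintype.card (MC n) = (2 * n + 3) * (n + 2) ^ 2 := by
      simp only [MC, Fintype.card_prod, Fintype.card_option, Fintype.card_fin, Fintype.card_bool]
      ring
    rw [this]; push_cast; ring
  have hA1 : (1:ℝ) ≤ (2 * n + 3) * (n + 2) ^ 2 := by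
    have h1 : (1:ℝ) ≤ 2 * n + 3 := by linarith
    have h2 : (1:ℝ) ≤ ((n:ℝ) + 2) ^ 2 := one_le_pow₀ (by linarith)
    nlinarith
  have hz1 : (1:ℝ) ≤ ((2 * n + 3) * (n + 2) ^ 2) * l := by nlinarith
  have S1 := log_card_sparse_le n (MC n) (none, none, none) (t / d + 3 * numM n)
    (((2 * n + 3) * (n + 2) ^ 2) * l) hz1
  rw [hcard1] at S1
  have q1 : (n:ℝ) * ((2 * n + 3) * (n + 2) ^ 2) / (((2 * n + 3) * (n + 2) ^ 2) * l) = n / l := by
    have : (2 * (n:ℝ) + 3) * (n + 2) ^ 2 ≠ 0 := by positivity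
    field_simp
  rw [q1] at S1
  have hlogz : Real.log (((2 * n + 3) * (n + 2) ^ 2) * l) ≤ 7 * L := by
    have hn3 : (3:ℝ) ≤ n := by exact_mod_cast h3
    have hln : (l:ℝ) ≤ n := by
      have : l ≤ n := Nat.clog_le_of_le_pow (Nat.lt_two_pow_self).le
      exact_mod_cast this
    have h5 : ((2 * (n:ℝ) + 3) * (n + 2) ^ 2) * l ≤ n ^ 7 := by
      have h6 : 2 * (n:ℝ) + 3 ≤ n ^ 2 := by nlinarith
      have h7 : (n:ℝ) + 2 ≤ n ^ 2 := by nlinarith
      calc ((2 * (n:ℝ) + 3) * ((n:ℝ) + 2) ^ 2) * (l:ℝ)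
          ≤ ((n:ℝ) ^ 2 * ((n:ℝ) ^ 2) ^ 2) * (n:ℝ) := by gcongr
        _ = (n:ℝ) ^ 7 := by ring
    calc Real.log (((2 * n + 3) * (n + 2) ^ 2) * l) ≤ Real.log ((n:ℝ) ^ 7) :=
          Real.log_le_log (by positivity) h5
      _ = 7 * L := by rw [Real.log_pow, hLdef]; norm_num
  have hlogz0 : 0 ≤ Real.log (((2 * n + 3) * (n + 2) ^ 2) * (l:ℝ)) := Real.log_nonneg hz1
  have hnl : (n:ℝ) / l ≤ n / L := by gcongr
  have b1 : (n * Real.log l / (l:ℝ) ^ 3) * L ≤ n / L := by
    calc ((n:ℝ) * Real.log l / (l:ℝ) ^ 3) * L ≤ ((n:ℝ) * l / (l:ℝ) ^ 3) * l := by gcongr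
      _ = (n:ℝ) / l := by field_simp
      _ ≤ n / L := hnl
  have b2 : L ≤ n / L := by rw [le_div_iff₀ (by linarith)]; exact hsq
  have b3 : ((n:ℝ) / (l:ℝ) ^ 3) * L ≤ n / L := by
    calc ((n:ℝ) / (l:ℝ) ^ 3) * L ≤ ((n:ℝ) / (l:ℝ) ^ 3) * l := by gcongr
      _ = (n:ℝ) / (l:ℝ) ^ 2 := by field_simp
      _ ≤ (n:ℝ) / l := by
          gcongr
          calc (l:ℝ) = l * 1 := by ring
            _ ≤ l * l := by gcongr
            _ = l ^ 2 := by ring
      _ ≤ n / L := hnl
  have b4 : (t:ℝ) * (1 / d) * L ≤ 3400 * (t * LL) := by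
    calc (t:ℝ) * (1 / d) * L ≤ t * (3400 * (LL / L)) * L := by gcongr
      _ = 3400 * (t * LL) := by field_simp
  have hK2 : ((t / d + 3 * numM n : ℕ) : ℝ) * Real.log (((2 * n + 3) * (n + 2) ^ 2) * l)
      ≤ 23800 * (t * LL) + 105 * (n / L) := by
    calc ((t / d + 3 * numM n : ℕ) : ℝ) * Real.log (((2 * n + 3) * (n + 2) ^ 2) * l)
        ≤ (t * (1 / d) + 3 * (3 * (n * Real.log l / (l:ℝ) ^ 3) + 1 + n / (l:ℝ) ^ 3))
          * (7 * L) := by gcongr
      _ = 7 * (t * (1 / d) * L) + 63 * ((n * Real.log l / (l:ℝ) ^ 3) * L) + 21 * L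
          + 21 * ((n / (l:ℝ) ^ 3) * L) := by ring
      _ ≤ 7 * (3400 * (t * LL)) + 63 * (n / L) + 21 * (n / L) + 21 * (n / L) := by gcongr
      _ = _ := by ring
  -- marks of type two
  have hcard2 : (Fintype.card MS : ℝ) = 12 := by
    have : Fintype.card MS = 12 := by
      simp only [MS, Fintype.card_prod, Fintype.card_option, Fintype.card_bool]
    rw [this]; norm_num
  have S2 := log_card_sparse_le n MS (none, false, false) (3 * t) l hl1
  rw [hcard2] at S2
  have hK3 : ((3 * t : ℕ) : ℝ) * Real.log l ≤ 9 * (t * LL) := by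
    push_cast
    calc 3 * (t:ℝ) * Real.log l ≤ 3 * t * (3 * LL) := by gcongr
      _ = _ := by ring
  have b5 : (n:ℝ) * 12 / l = 12 * (n / l) := by ring
  rw [b5] at S2
  have hT0 : 0 ≤ (t:ℝ) * LL := by positivity
  have hnL0 : 0 ≤ (n:ℝ) / L := by positivity
  linarith

theorem blocksC_core : ∃ N0 : ℕ, ∀ n : ℕ, N0 ≤ n → ∀ M : ℕ, 1 ≤ M →
    ∀ b : Fin M → Fin n → ℕ,
    (∀ i k, (univ.filter (fun u => b i u = k)).card ≤ n / Nat.clog 2 n ^ 10) → ∀ t : ℕ,
    HasMA n (60000 * (Real.log M + t * Real.log (Real.log n) + n / Real.log n))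
      (YesC n M b t) (fun x y => ¬ (x ⊔ y).Connected) := by
  obtain ⟨N1, hN1⟩ := engineC_final
  obtain ⟨N2, hN2⟩ := eventually_atTop.mp (ev_facts.and (ev_costC.and (ev_log_pow_le 10 (3 ^ 10)
    (by norm_num))))
  refine ⟨N1 + N2, fun n hn M hM b hb t => ?_⟩
  obtain ⟨⟨h3, e1, e2, e3, hLL, hL, e4, e5, hsq⟩, f4, f5⟩ := hN2 n (by omega)
  have f4 := f4 t
  set l := Nat.clog 2 n with hl
  set lam := Nat.clog 2 l with hlam
  set m := l / (170 * lam) with hm
  have hm2 : 2 ≤ m := by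
    rw [hm, Nat.le_div_iff_mul_le (by omega)]; omega
  have hl400 : 400 ≤ l := by omega
  obtain ⟨d, hd⟩ : ∃ d, m = d + 1 := ⟨m - 1, by omega⟩
  have hd1 : m - 1 = d := by omega
  rw [hd1] at f4
  have hdpos : 1 ≤ d := by omega
  obtain ⟨D, hD⟩ : ∃ D, l ^ 3 = D + 1 := by
    have : 0 < l ^ 3 := by positivity
    exact ⟨l ^ 3 - 1, by omega⟩
  -- block structure
  have hnl10 : l ^ 10 ≤ n := by
    have h1 : ((l ^ 10 : ℕ) : ℝ) ≤ n := by
      push_cast
      calc (l:ℝ) ^ 10 ≤ (3 * Real.log n) ^ 10 := by gcongr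
        _ = 3 ^ 10 * Real.log n ^ 10 := by ring
        _ ≤ n := f5
    exact_mod_cast h1
  set s0 := n / l ^ 10 with hs0
  have hl10 : 0 < l ^ 10 := by positivity
  have hs1 : 1 ≤ s0 := by
    rw [hs0, Nat.le_div_iff_mul_le hl10]; omega
  have hsn : s0 ≤ n := Nat.div_le_self _ _
  have hTt : n / s0 + 1 ≤ l ^ 11 := by
    have h1 : n < 2 * s0 * l ^ 10 := by
      have h2 := Nat.div_add_mod n (l ^ 10)
      have h4 := Nat.mod_lt n hl10
      rw [← hs0] at h2
      nlinarith
    have h2 : n / s0 < 2 * l ^ 10 := by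
      rw [Nat.div_lt_iff_lt_mul (by omega)]
      calc n < 2 * s0 * l ^ 10 := h1
        _ = 2 * l ^ 10 * s0 := by ring
    calc n / s0 + 1 ≤ 2 * l ^ 10 := h2
      _ ≤ l * l ^ 10 := Nat.mul_le_mul_right _ (by omega)
      _ = l ^ 11 := by ring
  have hN4 : (n / s0 + 1) * (2 * s0) ≤ 4 * n := by
    have h1 : n / s0 * s0 ≤ n := Nat.div_mul_le_self _ _
    nlinarith
  have hpos := fun i => exists_pos hs1 (b i) (hb i)
  choose pos hposi hposb using hpos
  obtain ⟨code, hcode⟩ := exists_code3 (n := n) (l := l) (Nat.le_pow_clog (by norm_num) n)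
  set K1 := t / d + 3 * numM n with hK1
  have hFn : Nonempty (Fin n) := ⟨⟨0, by omega⟩⟩
  have hFM : Nonempty (Fin M) := ⟨⟨0, by omega⟩⟩
  have hWne : Nonempty (Fin M × Fin n × Sparse n (MC n) (none, none, none) K1 ×
      Sparse n MS (none, false, false) (3 * t)) := by
    infer_instance
  have hinv : ∀ i u, Function.invFun (pos i) (pos i u) = u := fun i u =>
    Function.leftInverse_invFun (hposi i) u
  have hR : 85 * (lam * (m + m)) ≤ l := by
    have := Nat.div_mul_le_self l (170 * lam)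
    rw [← hm] at this
    calc 85 * (lam * (m + m)) = m * (170 * lam) := by ring
      _ ≤ l := this
  have main := hN1 n (by omega) ((n / s0 + 1) * (2 * s0)) (2 * l + 1) (m + m) D (2 * s0)
    (n / s0 + 1) (by omega) hD.ge hR (by omega) (Nat.succ_pos _) le_rfl hN4 hTt le_rfl
    (Fin M × Fin n × Sparse n (MC n) (none, none, none) K1 ×
      Sparse n MS (none, false, false) (3 * t))
    (fun w _ => (univ.filter (fun s => (w.2.2.1.1 s).2.1 ≠ none)).card
        = (univ.filter (fun s => ∃ k, (w.2.2.1.1 s).1 = some (k, true))).card)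
    (fun _ _ => True)
    (fun w x p => ans code (b w.1) w.2.2.1.1 w.2.2.2.1 x (Function.invFun (pos w.1) p))
    (fun w y v β => badC (pos w.1) (Function.invFun (pos w.1)) code (b w.1) w.2.2.1.1 w.2.2.2.1
      w.2.1 y v β)
    (YesC n M b t) (fun x y => ¬ (x ⊔ y).Connected)
    (by
      rintro x y ⟨hx, hy, hG, i, hi⟩
      set S1 : Finset (Fin n) := univ.filter (fun e =>
        D + 1 ≤ (exT (ptr (restr (b i) x)) (restr (b i) y) e (D + 1)).card) with hS1
      obtain ⟨M1, hM1, hM1c⟩ := greedy_hit S1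
        (fun e => exT (ptr (restr (b i) x)) (restr (b i) y) e (D + 1)) (D + 1) n (by omega)
        (by simp) (fun e he => (Finset.mem_filter.mp he).2) (3 * Real.log l) (by
          have := Real.log_natCast_nonneg l
          linarith)
      have hM3 : M1.card ≤ numM n := by
        apply Nat.le_floor
        rw [← hl, hD]
        exact hM1c
      obtain ⟨mk, ms, m0, c1, c2, c3, c4⟩ := exists_cert x y hx hy hG (b i) D d t hdpos hi M1
        (fun e he => hM1 e (Finset.mem_filter.mpr ⟨Finset.mem_univ _, he⟩))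
      have hk1 : (univ.filter (fun v => mk v ≠ (none, none, none))).card ≤ K1 := by omega
      refine ⟨(i, m0, ⟨mk, ?_⟩, ⟨ms, ?_⟩), c2, trivial, ?_⟩
      · refine le_trans (le_of_eq ?_) hk1
        congr 1
        ext v
        simp
      · refine le_trans (le_of_eq ?_) c4
        congr 1
        ext v
        simp
      · intro v _
        apply not_badC (by omega) (pos i) _ (hinv i) code hcode
        rw [hd]
        exact c1)
    (by
      rintro x y hno ⟨i, m0, mk, ms⟩ hcount _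
      simp only at hcount
      by_contra hcon
      apply hno
      apply Loc.sound (m := m) (mk := mk.1) (m0 := m0)
        (T := fun s j => Tx (b i) ms.1 x y D s j) _ hcount
      · intro s s'
        by_contra hbad
        exact hcon (exists_badC (pos i) (Function.invFun (pos i)) code (b i) (hposb i) mk.1 ms.1 m0
          x y s s' hbad)
      · intro s j v hv
        exact TC_reachable x y (b i) ms.1 D s j v hv)
  refine main.mono ?_ (fun _ _ h => h) (fun _ _ h => h)
  have hn0 : (0:ℝ) < n := by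
    have : 0 < n := by omega
    exact_mod_cast this
  have hM0 : (0:ℝ) < M := by exact_mod_cast (show 0 < M by omega)
  have c1 : (0:ℝ) < Fintype.card (Sparse n (MC n) (none, none, none) K1) := by
    exact_mod_cast Fintype.card_pos
  have c2 : (0:ℝ) < Fintype.card (Sparse n MS (none, false, false) (3 * t)) := by
    exact_mod_cast Fintype.card_pos
  have hlogW : Real.log (Fintype.card (Fin M × Fin n × Sparse n (MC n) (none, none, none) K1 ×
      Sparse n MS (none, false, false) (3 * t)))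
      = Real.log M + (Real.log n
        + (Real.log (Fintype.card (Sparse n (MC n) (none, none, none) K1))
          + Real.log (Fintype.card (Sparse n MS (none, false, false) (3 * t))))) := by
    rw [Fintype.card_prod, Fintype.card_prod, Fintype.card_prod, Fintype.card_fin, Fintype.card_fin]
    push_cast
    rw [Real.log_mul hM0.ne' (by positivity), Real.log_mul hn0.ne' (by positivity),
      Real.log_mul c1.ne' c2.ne']
  rw [hlogW]
  set LL := Real.log (Real.log n) with hLLdef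
  set L := Real.log (n:ℝ) with hLdef
  have hl0 : (0:ℝ) < l := by linarith
  have hlogM : 0 ≤ Real.log (M:ℝ) := Real.log_natCast_nonneg M
  have hX0 : 0 ≤ t * LL := by positivity
  have hnl : (n:ℝ) / l ≤ n / L := by gcongr
  have hLn : L ≤ n / L := by rw [le_div_iff₀ (by linarith)]; exact hsq
  linarith

end Helper67_MA3
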