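import Pool.Agent.Helper67_MA3.Chain

set_option autoImplicit false

namespace Helper67_MA3

open Finset Classical Helper42_MA Helper67_MA2

section
variable {n : ℕ}

/-- Closed graphs: components are cliques. -/
def Cl (x : SimpleGraph (Fin n)) : Prop := ∀ u v, x.Reachable u v → u = v ∨ x.Adj u v

theorem card_exU_le (f : Fin n → Fin n) (y : SimpleGraph (Fin n)) (s : Fin n) (i : ℕ) :
    (exU f y s i).card ≤ i := by
  induction i with
  | zero => simp [exU]
  | succ i ih =>
    rw [exU]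
    exact (Finset.card_insert_le _ _).trans (by omega)

theorem compF_congr (H : SimpleGraph (Fin n)) {u v : Fin n} (h : H.Reachable u v) :
    compF H u = compF H v := by
  ext w
  rw [mem_compF, mem_compF]
  exact ⟨fun hw => h.symm.trans hw, fun hw => h.trans hw⟩

theorem first_step (H : SimpleGraph (Fin n)) {a b : Fin n} (h : H.Reachable a b) (hab : a ≠ b) :
    ∃ m1, H.Adj a m1 ∧ H.dist m1 b + 1 ≤ H.dist a b := by
  obtain ⟨p, hp⟩ := h.exists_walk_length_eq_dist
  cases p with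
  | nil => exact absurd rfl hab
  | @cons _ m1 _ hadj p =>
    refine ⟨m1, hadj, ?_⟩
    rw [← hp, SimpleGraph.Walk.length_cons]
    have := SimpleGraph.dist_le p
    omega

/-- Depth in the quotient graph. -/
theorem exists_depth (G : SimpleGraph (Fin n)) (hG : G.Connected) (N : Fin n → Fin n) (r : Fin n) :
    ∃ δ : Fin n → ℕ, (∀ v, δ v ≤ n) ∧ (∀ v, δ v = 0 → N v = N r) ∧
      (∀ u u', G.Adj u u' → δ u ≤ δ u' + 1) ∧
      (∀ v, N v ≠ N r → ∃ u u', G.Adj u u' ∧ N u = N v ∧ δ u' + 1 = δ v) ∧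
      (∀ u v, N u = N v → δ u = δ v) := by
  set H := cgraph G N with hH
  set δ : Fin n → ℕ := fun v => H.dist (N v) (N r) with hδ
  have hreach : ∀ v, H.Reachable (N v) (N r) ∧ δ v ≤ G.dist v r := by
    intro v
    obtain ⟨p, hp⟩ := hG.exists_walk_length_eq_dist v r
    obtain ⟨p', hp'⟩ := cgraph_walk G N p
    refine ⟨⟨p'⟩, ?_⟩
    calc δ v ≤ p'.length := SimpleGraph.dist_le p'
      _ ≤ p.length := hp'
      _ = G.dist v r := hp
  have hstep : ∀ u u', G.Adj u u' → δ u ≤ δ u' + 1 := by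
    intro u u' huu
    by_cases h : N u = N u'
    · have : δ u = δ u' := by rw [hδ]; simp only; rw [h]
      omega
    · have hadj : H.Adj (N u) (N u') := ⟨h, u, u', huu, rfl, rfl⟩
      obtain ⟨p, hp⟩ := (hreach u').1.exists_walk_length_eq_dist
      have h1 := SimpleGraph.dist_le (SimpleGraph.Walk.cons hadj p)
      rw [SimpleGraph.Walk.length_cons, hp] at h1
      exact h1
  refine ⟨δ, ?_, ?_, hstep, ?_, ?_⟩
  · intro v
    refine (hreach v).2.trans ?_
    obtain ⟨p, hp, hp2⟩ := hG.exists_path_of_dist v r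
    have h3 := hp.length_lt
    rw [Fintype.card_fin] at h3
    omega
  · intro v hv
    exact ((hreach v).1.dist_eq_zero_iff).mp hv
  · intro v hv
    obtain ⟨m1, hadj, hm⟩ := first_step H (hreach v).1 hv
    have hadj2 : N v ≠ m1 ∧ ∃ u u', G.Adj u u' ∧ N u = N v ∧ N u' = m1 := hadj
    obtain ⟨_, u, u', h1, h2, h3⟩ := hadj2
    refine ⟨u, u', h1, h2, ?_⟩
    have h4 := hstep u u' h1
    have h5 : δ u = δ v := by rw [hδ]; simp only; rw [h2]
    have h6 : δ u' + 1 ≤ δ v := by
      rw [hδ]; simp only; rw [h3]; exact hm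
    omega
  · intro u v h
    rw [hδ]; simp only; rw [h]

/-- A small piece. -/
def Sm (bl : Fin n → ℕ) (x y : SimpleGraph (Fin n)) (D : ℕ) (v : Fin n) : Prop :=
  (compF (restr bl x ⊔ restr bl y) v).card ≤ D + 1

theorem Sm.congr {bl : Fin n → ℕ} {x y : SimpleGraph (Fin n)} {D : ℕ} {u v : Fin n}
    (h : (restr bl x ⊔ restr bl y).Reachable u v) : Sm bl x y D u ↔ Sm bl x y D v := by
  unfold Sm
  rw [compF_congr _ h]

theorem Sm.full {bl : Fin n → ℕ} {x y : SimpleGraph (Fin n)} {D : ℕ} {v : Fin n}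
    (h : Sm bl x y D v) : exU (ptr (restr bl x)) (restr bl y) v (D + 1)
      = compF (restr bl x ⊔ restr bl y) v := by
  rcases exU_full (restr bl x) (restr bl y) (ptr (restr bl x)) (ptr_reachable _)
    (ptr_closed _) v (D + 1) with h1 | h1
  · apply Finset.eq_of_subset_of_card_le
    · intro w hw
      exact (mem_compF _ _ _).mpr (exT_reachable (restr bl x) (restr bl y) _ (ptr_reachable _) _ _ w
        (exU_subset_exT _ _ _ _ hw))
    · rw [h1]; exact h
  · exact h1

theorem Sm.big {bl : Fin n → ℕ} {x y : SimpleGraph (Fin n)} {D : ℕ} {v : Fin n}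
    (h : ¬ Sm bl x y D v) :
    D + 1 ≤ (exT (ptr (restr bl x)) (restr bl y) v (D + 1)).card := by
  rcases exU_full (restr bl x) (restr bl y) (ptr (restr bl x)) (ptr_reachable _)
    (ptr_closed _) v (D + 1) with h1 | h1
  · conv_lhs => rw [← h1]
    exact Finset.card_le_card (exU_subset_exT _ _ _ _)
  · exfalso
    apply h
    unfold Sm
    rw [← h1]
    exact card_exU_le _ _ _ _

theorem exT_sub_comp (bl : Fin n → ℕ) (x y : SimpleGraph (Fin n)) (D : ℕ) (v w : Fin n)
    (hw : w ∈ exT (ptr (restr bl x)) (restr bl y) v (D + 1)) :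
    (restr bl x ⊔ restr bl y).Reachable v w :=
  exT_reachable (restr bl x) (restr bl y) _ (ptr_reachable _) _ _ w hw

/-- The node map. -/
theorem exists_nodes (bl : Fin n → ℕ) (x y : SimpleGraph (Fin n)) (D : ℕ) (M1 : Finset (Fin n))
    (hM1 : ∀ e, D + 1 ≤ (exT (ptr (restr bl x)) (restr bl y) e (D + 1)).card →
      ∃ v ∈ exT (ptr (restr bl x)) (restr bl y) e (D + 1), v ∈ M1) :
    ∃ N : Fin n → Fin n,
      (∀ v, N v ∈ exT (ptr (restr bl x)) (restr bl y) v (D + 1)) ∧
      (∀ v, (restr bl x ⊔ restr bl y).Reachable v (N v)) ∧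
      (∀ u v, Sm bl x y D u → (restr bl x ⊔ restr bl y).Reachable u v → N u = N v) ∧
      (∀ v, ¬ Sm bl x y D v → N v ∈ M1 ∧
        ∀ u ∈ exT (ptr (restr bl x)) (restr bl y) v (D + 1), u ∈ M1 → N v ≤ u) := by
  have hne : ∀ v, (compF (restr bl x ⊔ restr bl y) v).Nonempty := fun v =>
    ⟨v, (mem_compF _ _ _).mpr (SimpleGraph.Reachable.refl v)⟩
  set N : Fin n → Fin n := fun v =>
    if Sm bl x y D v then (compF (restr bl x ⊔ restr bl y) v).min' (hne v)
    else if h : ((exT (ptr (restr bl x)) (restr bl y) v (D + 1)).filter (· ∈ M1)).Nonempty then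
      ((exT (ptr (restr bl x)) (restr bl y) v (D + 1)).filter (· ∈ M1)).min' h else v with hN
  have hbig : ∀ v, ¬ Sm bl x y D v →
      ((exT (ptr (restr bl x)) (restr bl y) v (D + 1)).filter (· ∈ M1)).Nonempty := by
    intro v hv
    obtain ⟨u, hu, hu2⟩ := hM1 v (Sm.big hv)
    exact ⟨u, Finset.mem_filter.mpr ⟨hu, hu2⟩⟩
  have e1 : ∀ v, Sm bl x y D v → N v = (compF (restr bl x ⊔ restr bl y) v).min' (hne v) := by
    intro v hv; rw [hN]; simp only; rw [if_pos hv]
  have e2 : ∀ v (hv : ¬ Sm bl x y D v), N v =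
      ((exT (ptr (restr bl x)) (restr bl y) v (D + 1)).filter (· ∈ M1)).min' (hbig v hv) := by
    intro v hv; rw [hN]; simp only; rw [if_neg hv, dif_pos (hbig v hv)]
  have h1 : ∀ v, N v ∈ exT (ptr (restr bl x)) (restr bl y) v (D + 1) := by
    intro v
    by_cases hv : Sm bl x y D v
    · rw [e1 v hv]
      apply exU_subset_exT
      rw [hv.full]
      exact Finset.min'_mem _ _
    · rw [e2 v hv]
      exact (Finset.mem_filter.mp (Finset.min'_mem _ (hbig v hv))).1
  refine ⟨N, h1, fun v => exT_sub_comp bl x y D v _ (h1 v), ?_, ?_⟩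
  · intro u v hu huv
    have hv : Sm bl x y D v := (Sm.congr huv).mp hu
    rw [e1 u hu, e1 v hv]
    have h2 := compF_congr (restr bl x ⊔ restr bl y) huv
    simp only [h2]
  · intro v hv
    rw [e2 v hv]
    refine ⟨(Finset.mem_filter.mp (Finset.min'_mem _ (hbig v hv))).2, fun u hu hu2 => ?_⟩
    exact Finset.min'_le _ _ (Finset.mem_filter.mpr ⟨hu, hu2⟩)

end

end Helper67_MA3
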